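import Mathlib.NumberTheory.NumberField.House
import Mathlib.FieldTheory.IntermediateField.Adjoin.Basic
import Mathlib.Tactic

/-!
# A lower bound for linear forms in two algebraic numbers
-/

set_option autoImplicit false

namespace Run7.h302.NC

open NumberField IntermediateField

/-- the linear forms in `1, t, s` are zero or not too small -/
def Tame (t s : ℝ) : Prop := ∃ (κ : ℕ) (c : ℝ), 0 < c ∧ ∀ n m k : ℤ, (n : ℝ) * t - m * s - k ≠ 0 →
  c ≤ (|(n : ℝ)| + |(m : ℝ)| + 1) ^ κ * |(n : ℝ) * t - m * s - k|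

theorem liou {K : Type*} [Field K] [NumberField K] (σ : K →+* ℂ) (x : K) (hx : x ≠ 0)
    (hi : IsIntegral ℤ x) : 1 ≤ ‖σ x‖ * house x ^ (Module.finrank ℚ K - 1) := by
  have h0 : 1 ≤ ‖Algebra.norm ℚ x‖ := by
    obtain ⟨y, hy⟩ : ∃ y : 𝓞 K, (y : K) = x := ⟨⟨x, hi⟩, rfl⟩
    rw [← hy, ← Algebra.coe_norm_int]
    have h : Algebra.norm ℤ y ≠ 0 := by
      rw [Algebra.norm_ne_zero_iff]
      rintro rfl
      exact hx (by rw [← hy]; rfl)
    have h2 : (1 : ℤ) ≤ |Algebra.norm ℤ y| := Int.one_le_abs h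
    rw [← Rat.norm_cast_real, Rat.cast_intCast, Real.norm_eq_abs]
    exact_mod_cast h2
  exact h0.trans (norm_norm_le_norm_mul_house_pow x σ)

theorem tame_alg {t s : ℝ} (ht : IsAlgebraic ℚ t) (hs : IsAlgebraic ℚ s) : Tame t s := by
  set K := adjoin ℚ ({(t : ℂ), (s : ℂ)} : Set ℂ) with hK
  have htC : IsAlgebraic ℚ (algebraMap ℝ ℂ t) := ht.algebraMap
  have hsC : IsAlgebraic ℚ (algebraMap ℝ ℂ s) := hs.algebraMap
  have : FiniteDimensional ℚ K := by
    apply finiteDimensional_adjoin
    intro x hx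
    rcases hx with rfl | rfl
    · exact htC.isIntegral
    · exact hsC.isIntegral
  have : NumberField K := ⟨⟩
  set t' : K := ⟨t, subset_adjoin _ _ (by simp)⟩ with ht'
  set s' : K := ⟨s, subset_adjoin _ _ (by simp)⟩ with hs'
  have hta : IsAlgebraic ℤ t' := by
    have : IsAlgebraic ℚ t' := Algebra.IsAlgebraic.isAlgebraic t'
    exact (IsFractionRing.isAlgebraic_iff ℤ ℚ K).2 this
  have hsa : IsAlgebraic ℤ s' := by
    have : IsAlgebraic ℚ s' := Algebra.IsAlgebraic.isAlgebraic s'
    exact (IsFractionRing.isAlgebraic_iff ℤ ℚ K).2 this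
  obtain ⟨d₁, hd₁, h1⟩ := hta.exists_integral_multiple
  obtain ⟨d₂, hd₂, h2⟩ := hsa.exists_integral_multiple
  set D : ℤ := d₁ * d₂ with hD
  have hD0 : D ≠ 0 := mul_ne_zero hd₁ hd₂
  have hDt : IsIntegral ℤ ((D : K) * t') := by
    have e : (D : K) * t' = (d₂ : K) * (d₁ • t') := by
      rw [hD, zsmul_eq_mul]
      push_cast
      ring
    rw [e]
    exact (isIntegral_algebraMap (R := ℤ) (A := K) (x := d₂)).mul h1
  have hDs : IsIntegral ℤ ((D : K) * s') := by
    have e : (D : K) * s' = (d₁ : K) * (d₂ • s') := by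
      rw [hD, zsmul_eq_mul]
      push_cast
      ring
    rw [e]
    exact (isIntegral_algebraMap (R := ℤ) (A := K) (x := d₁)).mul h2
  set σ : K →+* ℂ := algebraMap K ℂ with hσ
  set e : ℕ := Module.finrank ℚ K - 1 with he
  set Bt : ℝ := house ((D : K) * t') with hBt
  set Bs : ℝ := house ((D : K) * s') with hBs
  have hBt0 : 0 ≤ Bt := house_nonneg _
  have hBs0 : 0 ≤ Bs := house_nonneg _
  have hDR : (1 : ℝ) ≤ |(D : ℝ)| := by exact_mod_cast Int.one_le_abs hD0
  set B : ℝ := Bt + Bs + |(D : ℝ)| * (|t| + |s| + 1) with hB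
  have hB0 : 0 < B := by positivity
  have hBe : 0 < |(D : ℝ)| * B ^ e := by positivity
  refine ⟨e, min 1 (1 / (|(D : ℝ)| * B ^ e)), lt_min one_pos (by positivity),
    fun n m k hne => ?_⟩
  set H : ℝ := |(n : ℝ)| + |(m : ℝ)| + 1 with hH
  have hH1 : 1 ≤ H := by
    have := abs_nonneg (n : ℝ)
    have := abs_nonneg (m : ℝ)
    linarith
  have hHe : 1 ≤ H ^ e := one_le_pow₀ hH1
  set y : ℝ := (n : ℝ) * t - m * s - k with hy
  rcases le_or_gt 1 |y| with h | h
  · refine (min_le_left _ _).trans ?_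
    nlinarith
  · refine (min_le_right _ _).trans ?_
    have hk : |(k : ℝ)| ≤ (|t| + |s| + 1) * H := by
      have e1 : (k : ℝ) = (n : ℝ) * t - m * s - y := by rw [hy]; ring
      have e2 : |(k : ℝ)| ≤ |(n : ℝ)| * |t| + |(m : ℝ)| * |s| + |y| := by
        rw [e1]
        refine (abs_sub _ _).trans ?_
        have := abs_sub ((n : ℝ) * t) (m * s)
        rw [abs_mul, abs_mul] at this
        linarith
      have h3 := abs_nonneg t
      have h4 := abs_nonneg s
      have h5 := abs_nonneg (n : ℝ)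
      have h6 := abs_nonneg (m : ℝ)
      have h7 : (|t| + |s| + 1) * H = |t| * |(n : ℝ)| + |t| * |(m : ℝ)| + |t| + |s| * |(n : ℝ)| +
          |s| * |(m : ℝ)| + |s| + |(n : ℝ)| + |(m : ℝ)| + 1 := by rw [hH]; ring
      have h8 : 0 ≤ |t| * |(m : ℝ)| := by positivity
      have h9 : 0 ≤ |s| * |(n : ℝ)| := by positivity
      rw [h7]
      linarith
    set x : K := (n : K) * ((D : K) * t') - (m : K) * ((D : K) * s') - ((D * k : ℤ) : K) with hx
    have hσx : σ x = ((D : ℝ) * y : ℝ) := by
      have e1 : x = (D : K) * ((n : K) * t' - (m : K) * s' - (k : K)) := by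
        rw [hx]
        push_cast
        ring
      have e2 : σ t' = (t : ℂ) := rfl
      have e3 : σ s' = (s : ℂ) := rfl
      rw [e1, map_mul, map_sub, map_sub, map_mul, map_mul, e2, e3, map_intCast, map_intCast,
        map_intCast, map_intCast, hy]
      push_cast
      ring
    have hnx : ‖σ x‖ = |(D : ℝ)| * |y| := by
      rw [hσx, Complex.norm_real, Real.norm_eq_abs, abs_mul]
    have hx0 : x ≠ 0 := by
      intro h0
      rw [h0, map_zero, norm_zero] at hnx
      have : 0 < |(D : ℝ)| * |y| := mul_pos (by linarith) (abs_pos.2 hne)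
      linarith
    have hxi : IsIntegral ℤ x := by
      refine ((IsIntegral.mul ?_ hDt).sub (IsIntegral.mul ?_ hDs)).sub ?_
      · exact isIntegral_algebraMap (R := ℤ) (A := K) (x := n)
      · exact isIntegral_algebraMap (R := ℤ) (A := K) (x := m)
      · exact isIntegral_algebraMap (R := ℤ) (A := K) (x := D * k)
    have hhouse : house x ≤ B * H := by
      have e1 : x = (n : K) * ((D : K) * t') + (((-m : ℤ) : K) * ((D : K) * s') +
          ((-(D * k) : ℤ) : K)) := by
        rw [hx]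
        push_cast
        ring
      have e2 : house ((n : K) * ((D : K) * t')) ≤ |(n : ℝ)| * Bt := by
        refine (house_mul_le _ _).trans ?_
        rw [house_intCast]
        push_cast
        exact le_rfl
      have e3 : house (((-m : ℤ) : K) * ((D : K) * s')) ≤ |(m : ℝ)| * Bs := by
        refine (house_mul_le _ _).trans ?_
        rw [house_intCast, abs_neg]
        push_cast
        exact le_rfl
      have e4 : house (((-(D * k) : ℤ)) : K) = |(D : ℝ)| * |(k : ℝ)| := by
        rw [house_intCast, abs_neg, abs_mul]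
        push_cast
        rfl
      rw [e1]
      have e5 := house_add_le ((n : K) * ((D : K) * t')) (((-m : ℤ) : K) * ((D : K) * s') +
          ((-(D * k) : ℤ) : K))
      have e6 := house_add_le (((-m : ℤ) : K) * ((D : K) * s')) ((-(D * k) : ℤ) : K)
      have e7 : |(D : ℝ)| * |(k : ℝ)| ≤ |(D : ℝ)| * ((|t| + |s| + 1) * H) :=
        mul_le_mul_of_nonneg_left hk (abs_nonneg _)
      have h5 := abs_nonneg (n : ℝ)
      have h6 := abs_nonneg (m : ℝ)
      have e8 : |(n : ℝ)| * Bt ≤ H * Bt := mul_le_mul_of_nonneg_right (by linarith) hBt0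
      have e9 : |(m : ℝ)| * Bs ≤ H * Bs := mul_le_mul_of_nonneg_right (by linarith) hBs0
      have e10 : B * H = H * Bt + H * Bs + |(D : ℝ)| * ((|t| + |s| + 1) * H) := by rw [hB]; ring
      rw [e10]
      linarith
    have h3 := liou σ x hx0 hxi
    rw [hnx] at h3
    have h4 : house x ^ e ≤ (B * H) ^ e := pow_le_pow_left₀ (house_nonneg _) hhouse e
    have h5 : 1 ≤ |(D : ℝ)| * |y| * (B * H) ^ e :=
      h3.trans (mul_le_mul_of_nonneg_left h4 (by positivity))
    rw [div_le_iff₀ hBe]
    calc (1 : ℝ) ≤ |(D : ℝ)| * |y| * (B * H) ^ e := h5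
      _ = H ^ e * |y| * (|(D : ℝ)| * B ^ e) := by
        rw [mul_pow]
        ring

end Run7.h302.NC
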