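import Pool.Agent.Run7.h302.NC.Sep
import Pool.Agent.R473.JC.Pairs

/-!
# Irrationality measures of the logarithms of the rational numbers, of `e` and of `π`
-/

set_option autoImplicit false

namespace Run7.h302.NC

open Polynomial
open Pool.Agent.TH456.TM

theorem dioph_of_measT {ξ : ℝ} (h : MeasT (ξ : ℂ)) : Dioph ξ := by
  obtain ⟨κ, c, hκ, hc, hm⟩ := h 1
  refine ⟨κ, min 1 (c / (|ξ| + 1) ^ κ), hκ, by positivity, fun u v hu => ?_⟩
  have hu1 : (1 : ℝ) ≤ |(u : ℝ)| := by exact_mod_cast Int.one_le_abs hu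
  have hup : 1 ≤ |(u : ℝ)| ^ κ := Real.one_le_rpow hu1 hκ
  rcases le_total 1 |(u : ℝ) * ξ - v| with h1 | h1
  · refine (min_le_left _ _).trans ?_
    nlinarith
  · refine (min_le_right _ _).trans ?_
    rw [div_le_iff₀ (by positivity)]
    set P : ℤ[X] := C u * X - C v with hP
    have hP1 : P.coeff 1 = u := by
      rw [hP, coeff_sub, coeff_C_mul, coeff_X_one, mul_one, coeff_C_succ, sub_zero]
    have hP0 : P.coeff 0 = -v := by
      rw [hP, coeff_sub, coeff_C_mul, coeff_X_zero, mul_zero, coeff_C_zero, zero_sub]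
    have hPne : P ≠ 0 := by
      intro h2
      rw [h2, coeff_zero] at hP1
      exact hu hP1.symm
    have hdeg : P.natDegree ≤ 1 := by
      rw [hP]
      compute_degree
    have hv : |(v : ℝ)| ≤ |(u : ℝ)| * (|ξ| + 1) := by
      have h2 : (v : ℝ) = u * ξ - (u * ξ - v) := by ring
      rw [h2]
      refine (abs_sub _ _).trans ?_
      rw [abs_mul]
      have h3 : 0 ≤ |ξ| := abs_nonneg ξ
      nlinarith
    have hH1 : (1 : ℝ) ≤ |(u : ℝ)| * (|ξ| + 1) := by
      nlinarith [abs_nonneg ξ]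
    have h2 := hm P hPne hdeg (|(u : ℝ)| * (|ξ| + 1)) hH1 (by
      intro j
      rcases j with _ | _ | j
      · rw [hP0]
        push_cast
        rwa [abs_neg]
      · rw [hP1]
        nlinarith [abs_nonneg ξ]
      · rw [coeff_eq_zero_of_natDegree_lt (by omega)]
        simp
        positivity)
    have h3 : ‖aeval (ξ : ℂ) P‖ = |(u : ℝ) * ξ - v| := by
      rw [hP, map_sub, map_mul, aeval_X, aeval_C, aeval_C]
      have h4 : (algebraMap ℤ ℂ u) * (ξ : ℂ) - algebraMap ℤ ℂ v =
          (((u : ℝ) * ξ - v : ℝ) : ℂ) := by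
        push_cast
        simp
      rw [h4, Complex.norm_real, Real.norm_eq_abs]
    rw [h3, Real.mul_rpow (abs_nonneg _) (by positivity)] at h2
    linarith

theorem dioph_log (q : ℚ) (hq : 0 < q) (hq1 : q ≠ 1) : Dioph (Real.log q) :=
  dioph_of_measT (measT_real_log q hq hq1)

theorem dioph_e : Dioph (Real.exp 1) :=
  dioph_of_measT (Pool.Agent.R473.JC.measT_three _ (Or.inl rfl))

theorem dioph_pi : Dioph Real.pi :=
  dioph_of_measT (Pool.Agent.R473.JC.measT_three _ (Or.inr (Or.inl rfl)))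

end Run7.h302.NC
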