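import Pool.Agent.Run7.h302.NC.Cplx
import Pool.Agent.Run7.h302.NC.Meas

/-!
# The related conjecture on complex numbers
-/

set_option autoImplicit false

namespace Run7.h302.NC

open Real Filter Asymptotics Topology

/-- multiplicative independence -/
def MultIndep (α β : ℂ) : Prop := ∀ n m : ℤ, α ^ n * β ^ m = 1 → n = 0 ∧ m = 0

/-- the pairs -/
def cpairs (α β : ℂ) (x : ℝ) : Set (ℕ × ℕ) := {p | ‖α ^ p.1 - β ^ p.2‖ ≤ x}

/-- the asymptotic formula -/
def Asym (α β : ℂ) : Prop := (∀ x, (cpairs α β x).Finite) ∧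
  (fun x : ℝ => (((cpairs α β x).ncard : ℕ) : ℝ)) ~[atTop]
    (fun x : ℝ => log x ^ 2 / (log ‖α‖ * log ‖β‖))

lemma indep_iff {α β : ℂ} (ha : 1 < ‖α‖) (hb : 1 < ‖β‖) :
    MultIndep α β ↔ ¬ ∃ n m : ℕ, 0 < n ∧ 0 < m ∧ α ^ n = β ^ m := by
  have hla : 0 < log ‖α‖ := log_pos ha
  have hlb : 0 < log ‖β‖ := log_pos hb
  have hα0 : α ≠ 0 := by
    rintro rfl
    rw [norm_zero] at ha
    linarith
  have hβ0 : β ≠ 0 := by
    rintro rfl
    rw [norm_zero] at hb
    linarith
  constructor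
  · rintro h ⟨n, m, hn, hm, he⟩
    have h1 := h n (-m) (by
      rw [zpow_natCast, zpow_neg, zpow_natCast, he]
      exact mul_inv_cancel₀ (pow_ne_zero _ hβ0))
    omega
  · intro h n m he
    have h1 : (n : ℝ) * log ‖α‖ + m * log ‖β‖ = 0 := by
      have h2 := congrArg (fun z : ℂ => log ‖z‖) he
      simp only [norm_mul, norm_zpow, norm_one, log_one] at h2
      rw [log_mul (zpow_ne_zero _ (by positivity)) (zpow_ne_zero _ (by positivity)), log_zpow,
        log_zpow] at h2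
      exact h2
    rcases lt_trichotomy n 0 with hn | hn | hn
    · exfalso
      have hnR : (n : ℝ) < 0 := by exact_mod_cast hn
      have hm : 0 < m := by
        have : (0 : ℝ) < m := by
          by_contra hcon
          push Not at hcon
          nlinarith
        exact_mod_cast this
      obtain ⟨u, hu⟩ := Int.eq_ofNat_of_zero_le (by omega : 0 ≤ -n)
      obtain ⟨v, hv⟩ := Int.eq_ofNat_of_zero_le hm.le
      apply h
      refine ⟨u, v, by omega, by omega, ?_⟩
      have hn' : n = -(u : ℤ) := by omega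
      rw [hn', hv, zpow_neg, zpow_natCast] at he
      have h3 : ((v : ℕ) : ℤ) = (v : ℤ) := rfl
      simp only [Int.ofNat_eq_natCast, zpow_natCast] at he
      rw [inv_mul_eq_iff_eq_mul₀ (pow_ne_zero _ hα0), mul_one] at he
      exact he.symm
    · subst hn
      simp only [Int.cast_zero, zero_mul, zero_add] at h1
      have h2 : (m : ℝ) = 0 := by
        rcases mul_eq_zero.1 h1 with h3 | h3
        · exact h3
        · exact absurd h3 hlb.ne'
      exact ⟨rfl, by exact_mod_cast h2⟩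
    · exfalso
      have hnR : (0 : ℝ) < n := by exact_mod_cast hn
      have hm : m < 0 := by
        have : (m : ℝ) < 0 := by
          by_contra hcon
          push Not at hcon
          nlinarith
        exact_mod_cast this
      obtain ⟨u, hu⟩ := Int.eq_ofNat_of_zero_le hn.le
      obtain ⟨v, hv⟩ := Int.eq_ofNat_of_zero_le (by omega : 0 ≤ -m)
      apply h
      refine ⟨u, v, by omega, by omega, ?_⟩
      have hm' : m = -(v : ℤ) := by omega
      rw [hm', hu, zpow_neg, zpow_natCast] at he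
      simp only [Int.ofNat_eq_natCast, zpow_natCast] at he
      rw [mul_inv_eq_iff_eq_mul₀ (pow_ne_zero _ hβ0), one_mul] at he
      exact he

lemma infinite_of_dep {α β : ℂ} {n m : ℕ} (hn : 0 < n) (h : α ^ n = β ^ m) {x : ℝ} (hx : 0 ≤ x) :
    (cpairs α β x).Infinite := by
  have h1 : Function.Injective (fun g : ℕ => (g * n, g * m)) := by
    intro g g' hg
    simp only [Prod.mk.injEq] at hg
    exact Nat.eq_of_mul_eq_mul_right hn hg.1
  refine (Set.infinite_range_of_injective h1).mono ?_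
  rintro _ ⟨g, rfl⟩
  simp only [cpairs, Set.mem_ofPred_eq]
  rw [mul_comm g n, mul_comm g m, pow_mul, pow_mul, h, sub_self, norm_zero]
  exact hx

lemma log_small : Tendsto (fun x : ℝ => 1 / log x) atTop (𝓝 0) :=
  Tendsto.div_atTop tendsto_const_nhds tendsto_log_atTop

lemma asym_of_bound {α β : ℂ} (ha : 1 < ‖α‖) (hb : 1 < ‖β‖) {C : ℝ}
    (h : ∀ x : ℝ, 2 ≤ x → (cpairs α β x).Finite ∧
      |(((cpairs α β x).ncard : ℕ) : ℝ) - log x ^ 2 / (log ‖α‖ * log ‖β‖)| ≤ C * log x) :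
    Asym α β := by
  have hla : 0 < log ‖α‖ := log_pos ha
  have hlb : 0 < log ‖β‖ := log_pos hb
  refine ⟨fun x => (h (max x 2) (le_max_right _ _)).1.subset fun p hp =>
    le_trans hp (le_max_left x 2), ?_⟩
  have h1 : Tendsto (fun x : ℝ => C * (log ‖α‖ * log ‖β‖) * (1 / log x)) atTop (𝓝 0) := by
    have := log_small.const_mul (C * (log ‖α‖ * log ‖β‖))
    rwa [mul_zero] at this
  refine (isEquivalent_iff_tendsto_one ?_).2 ?_
  · filter_upwards [eventually_gt_atTop (1 : ℝ)] with x hx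
    have : 0 < log x := log_pos hx
    positivity
  · rw [tendsto_iff_dist_tendsto_zero]
    refine squeeze_zero' (Eventually.of_forall fun x => dist_nonneg) ?_ h1
    filter_upwards [eventually_ge_atTop (2 : ℝ)] with x hx
    have hlx : 0 < log x := log_pos (by linarith)
    obtain ⟨-, h2⟩ := h x hx
    rw [Real.dist_eq, Pi.div_apply]
    have h3 : (((cpairs α β x).ncard : ℕ) : ℝ) / (log x ^ 2 / (log ‖α‖ * log ‖β‖)) - 1 =
        ((((cpairs α β x).ncard : ℕ) : ℝ) - log x ^ 2 / (log ‖α‖ * log ‖β‖)) /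
          (log x ^ 2 / (log ‖α‖ * log ‖β‖)) := by
      field_simp
    rw [h3, abs_div, abs_of_pos (by positivity : 0 < log x ^ 2 / (log ‖α‖ * log ‖β‖)),
      div_le_iff₀ (by positivity)]
    refine h2.trans (le_of_eq ?_)
    field_simp

/-- **the related conjecture for tame arguments** -/
theorem related {α β : ℂ} (ha : 1 < ‖α‖) (hb : 1 < ‖β‖) {t s : ℝ}
    (hα : α = ‖α‖ * Complex.exp (2 * π * t * Complex.I))
    (hβ : β = ‖β‖ * Complex.exp (2 * π * s * Complex.I))
    (hT : Tame t s) (hirr : Irrational t ∨ Irrational s) :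
    (MultIndep α β ↔ Asym α β) ∧
    (MultIndep α β → (cnear α β).Finite ∧ ∃ C : ℝ, ∀ x : ℝ, 2 ≤ x → (cpairs α β x).Finite ∧
      |(((cpairs α β x).ncard : ℕ) : ℝ) - log x ^ 2 / (log ‖α‖ * log ‖β‖)| ≤ C * log x) ∧
    (¬ MultIndep α β → ∀ x : ℝ, 0 ≤ x → (cpairs α β x).Infinite) := by
  have h2 : MultIndep α β → (cnear α β).Finite ∧ ∃ C : ℝ, ∀ x : ℝ, 2 ≤ x →
      (cpairs α β x).Finite ∧
      |(((cpairs α β x).ncard : ℕ) : ℝ) - log x ^ 2 / (log ‖α‖ * log ‖β‖)| ≤ C * log x := by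
    intro h
    have h3 := cnear_finite ha hb hα hβ hT hirr ((indep_iff ha hb).1 h)
    exact ⟨h3, ccount ha hb h3⟩
  have h3 : ¬ MultIndep α β → ∀ x : ℝ, 0 ≤ x → (cpairs α β x).Infinite := by
    intro h x hx
    rw [indep_iff ha hb, not_not] at h
    obtain ⟨n, m, hn, -, he⟩ := h
    exact infinite_of_dep hn he hx
  refine ⟨⟨fun h => ?_, fun h => ?_⟩, h2, h3⟩
  · obtain ⟨-, C, hC⟩ := h2 h
    exact asym_of_bound ha hb hC
  · by_contra hcon
    exact h3 hcon 0 le_rfl (h.1 0)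

/-- the real case implies the complex case -/
theorem of_moduli {α β : ℂ} (ha : 1 < ‖α‖) (hb : 1 < ‖β‖)
    (h : Asym (‖α‖ : ℂ) (‖β‖ : ℂ)) : Asym α β := by
  have hla : 0 < log ‖α‖ := log_pos ha
  have hlb : 0 < log ‖β‖ := log_pos hb
  have hsub : ∀ x : ℝ, cpairs α β x ⊆ cpairs (‖α‖ : ℂ) (‖β‖ : ℂ) x := by
    intro x p hp
    simp only [cpairs, Set.mem_ofPred_eq] at hp ⊢
    have h1 := (real_le α β p).trans hp
    rw [one_mul] at h1
    have h2 : ((‖α‖ : ℂ) ^ p.1 - (‖β‖ : ℂ) ^ p.2) = ((‖α‖ ^ p.1 - ‖β‖ ^ p.2 : ℝ) : ℂ) := by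
      push_cast
      rfl
    rw [h2, Complex.norm_real, Real.norm_eq_abs]
    exact h1
  have hfin : ∀ x, (cpairs α β x).Finite := fun x => (h.1 x).subset (hsub x)
  refine ⟨hfin, ?_⟩
  obtain ⟨C, hC0, hC⟩ := lower_count ha hb
  have hpos : ∀ᶠ x : ℝ in atTop, (0 : ℝ) < log x ^ 2 / (log ‖α‖ * log ‖β‖) := by
    filter_upwards [eventually_gt_atTop (1 : ℝ)] with x hx
    have : 0 < log x := log_pos hx
    positivity
  have h1 := h.2
  simp only [Complex.norm_real, norm_norm] at h1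
  have h2 := (isEquivalent_iff_tendsto_one (hpos.mono fun x hx => hx.ne')).1 h1
  refine (isEquivalent_iff_tendsto_one (hpos.mono fun x hx => hx.ne')).2 ?_
  have h3 : Tendsto (fun x : ℝ => 1 - C * (log ‖α‖ * log ‖β‖) * (1 / log x)) atTop (𝓝 1) := by
    have := (log_small.const_mul (C * (log ‖α‖ * log ‖β‖))).const_sub 1
    rwa [mul_zero, sub_zero] at this
  refine tendsto_of_tendsto_of_tendsto_of_le_of_le' h3 h2 ?_ ?_
  · filter_upwards [eventually_ge_atTop (2 : ℝ)] with x hx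
    have hlx : 0 < log x := log_pos (by linarith)
    have h4 := hC x hx (cpairs α β x) (hfin x) (by
      intro p h5 h6
      simp only [cpairs, Set.mem_ofPred_eq]
      refine (norm_sub_le _ _).trans ?_
      rw [norm_pow, norm_pow]
      linarith)
    rw [Pi.div_apply, le_div_iff₀ (by positivity)]
    refine le_trans (le_of_eq ?_) h4
    field_simp
  · filter_upwards [eventually_ge_atTop (2 : ℝ)] with x hx
    have hlx : 0 < log x := log_pos (by linarith)
    rw [Pi.div_apply, Pi.div_apply]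
    apply div_le_div_of_nonneg_right _ (by positivity)
    exact_mod_cast Set.ncard_le_ncard (hsub x) (h.1 x)

/-- a number with a finite measure is irrational -/
theorem dioph_iff_irr {ξ : ℝ} (h : Dioph ξ) : Irrational ξ := by
  obtain ⟨κ, c₀, hκ, hc₀, hm⟩ := h
  rintro ⟨q, hq⟩
  have h1 := hm q.den q.num (by exact_mod_cast q.den_ne_zero)
  have h2 : ((q.den : ℤ) : ℝ) * ξ - (q.num : ℝ) = 0 := by
    rw [← hq]
    have h3 : (q : ℝ) = (q.num : ℝ) / q.den := Rat.cast_def q
    have h4 : (q.den : ℝ) ≠ 0 := by exact_mod_cast q.den_ne_zero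
    rw [h3]
    push_cast
    field_simp
    ring
  rw [h2, abs_zero, mul_zero] at h1
  linarith

/-- an irrational number with a finite measure and a rational number -/
theorem tame_of_dioph {t : ℝ} (h : Dioph t) (s : ℚ) : Tame t s := by
  obtain ⟨κ, c₀, hκ, hc₀, hm⟩ := h
  have hd : (0 : ℝ) < s.den := by exact_mod_cast s.den_pos
  have hd1 : (1 : ℝ) ≤ s.den := by exact_mod_cast s.den_pos
  refine ⟨⌈κ⌉₊, min (1 / s.den) (c₀ / (s.den : ℝ) ^ (κ + 1)),
    lt_min (by positivity) (by positivity), fun n m k hne => ?_⟩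
  set H : ℝ := |(n : ℝ)| + |(m : ℝ)| + 1 with hH
  have hH1 : 1 ≤ H := by
    have := abs_nonneg (n : ℝ)
    have := abs_nonneg (m : ℝ)
    linarith
  have hHe : 1 ≤ H ^ ⌈κ⌉₊ := one_le_pow₀ hH1
  have hs : (s : ℝ) * s.den = s.num := by exact_mod_cast Rat.mul_den_eq_num s
  have e1 : ((n : ℝ) * t - m * s - k) * s.den =
      ((n * s.den : ℤ) : ℝ) * t - ((m * s.num + k * s.den : ℤ) : ℝ) := by
    push_cast
    linear_combination (-(m : ℝ)) * hs
  have e2 : |(n : ℝ) * t - m * s - k| * s.den =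
      |((n * s.den : ℤ) : ℝ) * t - ((m * s.num + k * s.den : ℤ) : ℝ)| := by
    rw [← e1, abs_mul, abs_of_pos hd]
  rcases eq_or_ne n 0 with hn | hn
  · refine (min_le_left _ _).trans ?_
    have e3 : (1 : ℝ) ≤ |(n : ℝ) * t - m * s - k| * s.den := by
      rw [e2, hn]
      have e4 : (((0 * s.den : ℤ) : ℝ) * t - ((m * s.num + k * s.den : ℤ) : ℝ)) =
          ((-(m * s.num + k * s.den) : ℤ) : ℝ) := by
        push_cast
        ring
      rw [e4, ← Int.cast_abs]
      have e5 : (-(m * s.num + k * s.den) : ℤ) ≠ 0 := by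
        intro h0
        apply hne
        have e6 := e1
        rw [hn, e4, h0, Int.cast_zero] at e6
        rcases mul_eq_zero.1 e6 with e7 | e7
        · rw [hn, Int.cast_zero]
          exact e7
        · exact absurd e7 hd.ne'
      exact_mod_cast Int.one_le_abs e5
    rw [div_le_iff₀ hd]
    calc (1 : ℝ) ≤ |(n : ℝ) * t - m * s - k| * s.den := e3
      _ ≤ H ^ ⌈κ⌉₊ * (|(n : ℝ) * t - m * s - k| * s.den) :=
        le_mul_of_one_le_left (by positivity) hHe
      _ = _ := by ring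
  · refine (min_le_right _ _).trans ?_
    have e3 := hm (n * s.den) (m * s.num + k * s.den)
      (mul_ne_zero hn (by exact_mod_cast s.den_ne_zero))
    rw [← e2] at e3
    have e4 : |((n * s.den : ℤ) : ℝ)| ^ κ ≤ (s.den : ℝ) ^ κ * H ^ ⌈κ⌉₊ := by
      push_cast
      rw [abs_mul, abs_of_pos hd, mul_comm, mul_rpow hd.le (abs_nonneg _)]
      apply mul_le_mul_of_nonneg_left _ (by positivity)
      calc |(n : ℝ)| ^ κ ≤ H ^ κ := rpow_le_rpow (abs_nonneg _) (by
            have := abs_nonneg (m : ℝ)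
            linarith) hκ
        _ ≤ H ^ ((⌈κ⌉₊ : ℕ) : ℝ) := rpow_le_rpow_of_exponent_le hH1 (Nat.le_ceil κ)
        _ = H ^ ⌈κ⌉₊ := rpow_natCast _ _
    rw [div_le_iff₀ (by positivity), rpow_add hd, rpow_one]
    calc c₀ ≤ |((n * s.den : ℤ) : ℝ)| ^ κ * (|(n : ℝ) * t - m * s - k| * s.den) := e3
      _ ≤ ((s.den : ℝ) ^ κ * H ^ ⌈κ⌉₊) * (|(n : ℝ) * t - m * s - k| * s.den) :=
        mul_le_mul_of_nonneg_right e4 (by positivity)
      _ = _ := by ring

/-- an angle which is algebraic in radians -/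
theorem dioph_angle {θ : ℝ} (hθ : IsAlgebraic ℤ θ) (hθ0 : θ ≠ 0) : Dioph (θ / (2 * π)) := by
  apply dioph_of_measT
  have hpiM := Pool.Agent.TH456.TM.measT_pi
  have hθC : IsAlgebraic ℤ (algebraMap ℝ ℂ θ) := hθ.algebraMap
  have hθ0C : (algebraMap ℝ ℂ θ) ≠ 0 := by
    rw [Ne, map_eq_zero]
    exact hθ0
  have hpiT : Transcendental ℤ (π : ℂ) := by
    exact Pool.Agent.TH456.TM.transcendental_of_measT hpiM
  refine Pool.Agent.TH456.TM.measT_of_isAlgebraic hpiM _ ?_ ?_
  · set A := Algebra.adjoin ℤ ({(π : ℂ)} : Set ℂ) with hA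
    have h1 : IsAlgebraic A (π : ℂ) :=
      isAlgebraic_algebraMap (⟨π, Algebra.subset_adjoin (Set.mem_singleton _)⟩ : A)
    have h2 : IsAlgebraic A (algebraMap ℝ ℂ θ) := by
      refine IsAlgebraic.extendScalars (R := ℤ) (S := A) ?_ hθC
      exact FaithfulSMul.algebraMap_injective ℤ A
    have h3 : IsAlgebraic A (2 : ℂ) := by
      have : (2 : ℂ) = algebraMap A ℂ 2 := by rw [map_ofNat]
      rw [this]
      exact isAlgebraic_algebraMap _
    have h4 : ((θ / (2 * π) : ℝ) : ℂ) = (algebraMap ℝ ℂ θ) * ((2 : ℂ) * π)⁻¹ := by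
      push_cast
      rfl
    rw [h4]
    exact h2.mul (h3.mul h1).inv
  · intro hcon
    apply hpiT
    have h4 : (π : ℂ) = (algebraMap ℝ ℂ θ) * ((2 : ℂ) * ((θ / (2 * π) : ℝ) : ℂ))⁻¹ := by
      have hp : (π : ℂ) ≠ 0 := by exact_mod_cast pi_pos.ne'
      have hθ' : (θ : ℂ) ≠ 0 := by exact_mod_cast hθ0
      push_cast
      change (π : ℂ) = (θ : ℂ) * _
      field_simp
    rw [h4]
    have h5 : IsAlgebraic ℤ (2 : ℂ) := by
      have : (2 : ℂ) = algebraMap ℤ ℂ 2 := by rw [map_ofNat]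
      rw [this]
      exact isAlgebraic_algebraMap _
    exact hθC.mul (h5.mul hcon).inv

/-- for an irrational argument of `α` and `β > 0` there is no multiplicative relation -/
theorem indep_of_irr {a b t : ℝ} (ha : 1 < a) (hb : 1 < b) (ht : Irrational t) :
    ¬ ∃ n m : ℕ, 0 < n ∧ 0 < m ∧
      ((a : ℂ) * Complex.exp (2 * π * t * Complex.I)) ^ n = (b : ℂ) ^ m := by
  rintro ⟨n, m, hn, hm, he⟩
  have ha0 : 0 < a := by linarith
  have hb0 : 0 < b := by linarith
  rw [mul_pow, ← Complex.exp_nat_mul] at he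
  have h1 := congrArg norm he
  have h2 : (n * (2 * π * t * Complex.I) : ℂ) = ((2 * π * (n * t) : ℝ) : ℂ) * Complex.I := by
    push_cast
    ring
  rw [norm_mul, h2, Complex.norm_exp_ofReal_mul_I, mul_one, norm_pow, norm_pow, Complex.norm_real,
    Complex.norm_real, Real.norm_of_nonneg ha0.le, Real.norm_of_nonneg hb0.le] at h1
  have h3 : (a : ℂ) ^ n = (b : ℂ) ^ m := by exact_mod_cast h1
  rw [h3] at he
  have hbm : (b : ℂ) ^ m ≠ 0 := pow_ne_zero _ (by exact_mod_cast hb0.ne')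
  have h4 : Complex.exp (n * (2 * π * t * Complex.I)) = 1 := by
    have := mul_left_cancel₀ hbm (he.trans (mul_one _).symm)
    exact this
  have h5 := circle ((n : ℝ) * t)
  have h6 : (2 * π * ((n * t : ℝ) : ℂ) * Complex.I : ℂ) = n * (2 * π * t * Complex.I) := by
    push_cast
    ring
  rw [h6, h4, sub_self, norm_zero] at h5
  have h7 : |(n : ℝ) * t - round ((n : ℝ) * t)| = 0 := le_antisymm (by linarith) (abs_nonneg _)
  rw [abs_eq_zero, sub_eq_zero] at h7
  apply ht
  have hn0 : (n : ℝ) ≠ 0 := by exact_mod_cast hn.ne'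
  refine ⟨(round ((n : ℝ) * t) : ℚ) / n, ?_⟩
  push_cast
  rw [← h7]
  field_simp

end Run7.h302.NC
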