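import Mathlib.NumberTheory.LSeries.Dirichlet
import Mathlib.NumberTheory.LSeries.HurwitzZetaValues
import Mathlib.Analysis.Normed.Group.Tannery
import Mathlib.Data.Nat.Factorization.Basic
import Mathlib.Order.Filter.AtTopBot.Floor
import Mathlib.Tactic

/-!
# Coprime pairs in a box
-/

set_option autoImplicit false

namespace Run7.h302.NC

open Finset Filter Topology
open scoped ArithmeticFunction.Moebius

/-- the number of the coprime pairs in a box -/
def cop (N M : ℕ) : ℕ := ((Ioc 0 N ×ˢ Ioc 0 M).filter fun p => p.1.Coprime p.2).card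

lemma mu_div (m : ℕ) : (∑ d ∈ m.divisors, (μ d : ℤ)) = if m = 1 then 1 else 0 := by
  have h1 := ArithmeticFunction.coe_mul_zeta_apply (f := μ) (x := m)
  rw [← h1, ArithmeticFunction.moebius_mul_coe_zeta, ArithmeticFunction.one_apply]

lemma cop_eq (N M : ℕ) :
    (cop N M : ℤ) = ∑ d ∈ Ioc 0 N, μ d * (((N / d : ℕ) : ℤ) * ((M / d : ℕ) : ℤ)) := by
  classical
  unfold cop
  rw [card_filter]
  push_cast
  have h1 : ∀ p ∈ Ioc 0 N ×ˢ Ioc 0 M, (if p.1.Coprime p.2 then (1 : ℤ) else 0) =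
      ∑ d ∈ Ioc 0 N, if d ∣ p.1 ∧ d ∣ p.2 then (μ d : ℤ) else 0 := by
    intro p hp
    rw [mem_product, mem_Ioc, mem_Ioc] at hp
    rw [← sum_filter]
    have h2 : (Ioc 0 N).filter (fun d => d ∣ p.1 ∧ d ∣ p.2) = (Nat.gcd p.1 p.2).divisors := by
      ext d
      rw [mem_filter, mem_Ioc, Nat.mem_divisors, Nat.dvd_gcd_iff]
      constructor
      · rintro ⟨-, h3⟩
        exact ⟨h3, Nat.gcd_ne_zero_left (by omega)⟩
      · rintro ⟨h3, -⟩
        have h4 := Nat.le_of_dvd (by omega) h3.1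
        exact ⟨⟨Nat.pos_of_dvd_of_pos h3.1 (by omega), by omega⟩, h3⟩
    rw [h2, mu_div]
  rw [sum_congr rfl h1, sum_comm]
  refine sum_congr rfl fun d hd => ?_
  rw [← sum_filter, sum_const, nsmul_eq_mul, mul_comm]
  congr 1
  have h3 : (Ioc 0 N ×ˢ Ioc 0 M).filter (fun p => d ∣ p.1 ∧ d ∣ p.2) =
      ((Ioc 0 N).filter fun n => d ∣ n) ×ˢ ((Ioc 0 M).filter fun m => d ∣ m) := by
    ext p
    simp only [mem_filter, mem_product]
    tauto
  rw [h3, card_product, Nat.Ioc_filter_dvd_card_eq_div, Nat.Ioc_filter_dvd_card_eq_div]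
  push_cast
  rfl

lemma hasSum_mu : HasSum (fun d : ℕ => (μ d : ℝ) / (d : ℝ) ^ 2) (6 / Real.pi ^ 2) := by
  have h1 : (1 : ℝ) < (2 : ℂ).re := by simp
  have hz := LSeries_one_mul_Lseries_moebius h1
  rw [LSeries_one_eq_riemannZeta h1, riemannZeta_two] at hz
  have hsum := (ArithmeticFunction.LSeriesSummable_moebius_iff.mpr h1).hasSum
  have hpi : (Real.pi : ℂ) ≠ 0 := by exact_mod_cast Real.pi_ne_zero
  have hval : (∑' n : ℕ, LSeries.term (fun n => ((μ n : ℤ) : ℂ)) 2 n) =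
      ((6 / Real.pi ^ 2 : ℝ) : ℂ) := by
    have h2 : (∑' n : ℕ, LSeries.term (fun n => ((μ n : ℤ) : ℂ)) 2 n) =
      LSeries (fun n => ((μ n : ℤ) : ℂ)) 2 := rfl
    rw [h2]
    push_cast
    rw [eq_div_iff (pow_ne_zero 2 hpi)]
    linear_combination 6 * hz
  rw [hval] at hsum
  rw [← Complex.hasSum_ofReal]
  refine hsum.congr_fun ?_
  intro d
  rcases Nat.eq_zero_or_pos d with rfl | hd
  · simp
  · rw [LSeries.term_of_ne_zero hd.ne']
    push_cast
    congr 1
    rw [show (2 : ℂ) = ((2 : ℕ) : ℂ) by norm_num, Complex.cpow_natCast]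

lemma cop_tsum (N M : ℕ) : (cop N M : ℝ) / (N * M) =
    ∑' d : ℕ, (μ d : ℝ) * ((((N / d : ℕ) : ℝ) / N) * (((M / d : ℕ) : ℝ) / M)) := by
  rw [tsum_eq_sum (s := Ioc 0 N)]
  · have h1 : (cop N M : ℝ) = ((cop N M : ℤ) : ℝ) := by push_cast; rfl
    rw [h1, cop_eq]
    simp only [Int.cast_sum, Int.cast_mul, Int.cast_natCast]
    rw [sum_div]
    refine sum_congr rfl fun d _ => ?_
    rw [mul_div_assoc, div_mul_div_comm]
  · intro d hd
    rw [mem_Ioc, not_and_or, not_lt, not_le] at hd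
    rcases hd with h | h
    · have : d = 0 := by omega
      subst this
      simp
    · rw [Nat.div_eq_of_lt h]
      simp

lemma div_tendsto (d : ℕ) :
    Tendsto (fun N : ℕ => (((N / d : ℕ) : ℝ) / N)) atTop (𝓝 (1 / d)) := by
  rcases Nat.eq_zero_or_pos d with rfl | hd
  · simp
  have hd0 : (0 : ℝ) < d := by exact_mod_cast hd
  rw [tendsto_iff_dist_tendsto_zero]
  refine squeeze_zero' (Eventually.of_forall fun N => dist_nonneg) ?_
    tendsto_one_div_atTop_nhds_zero_nat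
  filter_upwards [eventually_ge_atTop 1] with N hN
  have hN0 : (0 : ℝ) < N := by
    have : 0 < N := by omega
    exact_mod_cast this
  rw [Real.dist_eq]
  have h1 : ((N / d : ℕ) : ℝ) ≤ (N : ℝ) / d := Nat.cast_div_le
  have h2 : (N : ℝ) / d ≤ ((N / d : ℕ) : ℝ) + 1 := by
    rw [div_le_iff₀ hd0]
    have h3 : N < d * (N / d + 1) := Nat.lt_mul_div_succ N hd
    have h4 : (N : ℝ) < d * ((N / d : ℕ) + 1) := by exact_mod_cast h3
    linarith
  have h5 : ((N / d : ℕ) : ℝ) / N - 1 / d = (((N / d : ℕ) : ℝ) - (N : ℝ) / d) / N := by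
    field_simp
  rw [h5, abs_div, abs_of_pos hN0]
  apply div_le_div_of_nonneg_right _ hN0.le
  rw [abs_le]
  constructor <;> linarith

theorem cop_tendsto {α : Type*} {l : Filter α} {N M : α → ℕ} (hN : Tendsto N l atTop)
    (hM : Tendsto M l atTop) :
    Tendsto (fun x => (cop (N x) (M x) : ℝ) / (N x * M x)) l (𝓝 (6 / Real.pi ^ 2)) := by
  have h0 : (6 / Real.pi ^ 2 : ℝ) = ∑' d : ℕ, (μ d : ℝ) * ((1 / (d : ℝ)) * (1 / d)) := by
    rw [← hasSum_mu.tsum_eq]
    refine tsum_congr fun d => ?_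
    rw [div_mul_div_comm, one_mul, mul_one_div, sq]
  rw [h0]
  simp_rw [cop_tsum]
  refine tendsto_tsum_of_dominated_convergence (bound := fun d : ℕ => 1 / (d : ℝ) ^ 2)
    (Real.summable_one_div_nat_pow.2 (by norm_num)) ?_ ?_
  · intro d
    exact ((((div_tendsto d).comp hN).mul ((div_tendsto d).comp hM)).const_mul _)
  · refine Eventually.of_forall fun x d => ?_
    have key : ∀ N : ℕ, 0 ≤ (((N / d : ℕ) : ℝ) / N) ∧ (((N / d : ℕ) : ℝ) / N) ≤ 1 / d := by
      intro N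
      refine ⟨by positivity, ?_⟩
      rcases Nat.eq_zero_or_pos N with rfl | hN
      · simp
      · have hN0 : (0 : ℝ) < N := by exact_mod_cast hN
        rw [div_le_iff₀ hN0]
        have : ((N / d : ℕ) : ℝ) ≤ (N : ℝ) / d := Nat.cast_div_le
        calc ((N / d : ℕ) : ℝ) ≤ (N : ℝ) / d := this
          _ = 1 / d * N := by ring
    obtain ⟨k1, k2⟩ := key (N x)
    obtain ⟨k3, k4⟩ := key (M x)
    rw [norm_mul, norm_mul, Real.norm_of_nonneg k1, Real.norm_of_nonneg k3]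
    have hmu : ‖(μ d : ℝ)‖ ≤ 1 := by
      rw [Real.norm_eq_abs]
      exact_mod_cast ArithmeticFunction.abs_moebius_le_one (n := d)
    calc ‖(μ d : ℝ)‖ * ((((N x / d : ℕ) : ℝ) / N x) * (((M x / d : ℕ) : ℝ) / M x))
        ≤ 1 * ((1 / d) * (1 / d)) := by
          apply mul_le_mul hmu _ (by positivity) (by norm_num)
          exact mul_le_mul k2 k4 k3 (by positivity)
      _ = 1 / (d : ℝ) ^ 2 := by
          rw [one_mul, div_mul_div_comm, one_mul, sq]

/-- the coprime pairs with `a ^ n ≤ x`, `b ^ m ≤ x` -/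
theorem cop_box {a b : ℝ} (ha : 1 < a) (hb : 1 < b) :
    Tendsto (fun x : ℝ => (({p : ℕ × ℕ | p.1.Coprime p.2 ∧ a ^ p.1 ≤ x ∧ b ^ p.2 ≤ x}.ncard : ℕ) : ℝ)
      / Real.log x ^ 2) atTop (𝓝 (6 / Real.pi ^ 2 / (Real.log a * Real.log b))) := by
  have hla : 0 < Real.log a := Real.log_pos ha
  have hlb : 0 < Real.log b := Real.log_pos hb
  set N : ℝ → ℕ := fun x => ⌊(1 / Real.log a) * Real.log x⌋₊ with hN
  set M : ℝ → ℕ := fun x => ⌊(1 / Real.log b) * Real.log x⌋₊ with hM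
  have hlog : Tendsto Real.log atTop atTop := Real.tendsto_log_atTop
  have t1 : Tendsto N atTop atTop := by
    refine tendsto_nat_floor_atTop.comp ?_
    exact (tendsto_const_mul_atTop_of_pos (by positivity)).2 hlog
  have t2 : Tendsto M atTop atTop := by
    refine tendsto_nat_floor_atTop.comp ?_
    exact (tendsto_const_mul_atTop_of_pos (by positivity)).2 hlog
  have t3 : Tendsto (fun x : ℝ => (N x : ℝ) / Real.log x) atTop (𝓝 (1 / Real.log a)) :=
    (tendsto_nat_floor_mul_div_atTop (R := ℝ) (a := 1 / Real.log a) (by positivity)).comp hlog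
  have t4 : Tendsto (fun x : ℝ => (M x : ℝ) / Real.log x) atTop (𝓝 (1 / Real.log b)) :=
    (tendsto_nat_floor_mul_div_atTop (R := ℝ) (a := 1 / Real.log b) (by positivity)).comp hlog
  have t5 := ((cop_tendsto t1 t2).mul (t3.mul t4))
  have h0 : 6 / Real.pi ^ 2 * (1 / Real.log a * (1 / Real.log b)) =
      6 / Real.pi ^ 2 / (Real.log a * Real.log b) := by
    field_simp
  rw [h0] at t5
  have t6 : Tendsto (fun x : ℝ => 2 / Real.log x ^ 2) atTop (𝓝 0) := by
    refine Tendsto.div_atTop tendsto_const_nhds ?_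
    exact (tendsto_pow_atTop (by norm_num)).comp hlog
  have key : ∀ᶠ x : ℝ in atTop,
      (cop (N x) (M x) : ℝ) / (N x * M x) * ((N x : ℝ) / Real.log x * ((M x : ℝ) / Real.log x)) ≤
        (({p : ℕ × ℕ | p.1.Coprime p.2 ∧ a ^ p.1 ≤ x ∧ b ^ p.2 ≤ x}.ncard : ℕ) : ℝ)
          / Real.log x ^ 2 ∧
      (({p : ℕ × ℕ | p.1.Coprime p.2 ∧ a ^ p.1 ≤ x ∧ b ^ p.2 ≤ x}.ncard : ℕ) : ℝ)
          / Real.log x ^ 2 ≤
        (cop (N x) (M x) : ℝ) / (N x * M x) * ((N x : ℝ) / Real.log x * ((M x : ℝ) / Real.log x)) +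
          2 / Real.log x ^ 2 := by
    filter_upwards [t1.eventually_ge_atTop 1, t2.eventually_ge_atTop 1,
      eventually_ge_atTop (2 : ℝ)] with x hNx hMx hx
    have hx0 : 0 < x := by linarith
    have hlx : 0 < Real.log x := Real.log_pos (by linarith)
    have hNx0 : (0 : ℝ) < N x := by exact_mod_cast hNx
    have hMx0 : (0 : ℝ) < M x := by exact_mod_cast hMx
    have e1 : (cop (N x) (M x) : ℝ) / (N x * M x) *
        ((N x : ℝ) / Real.log x * ((M x : ℝ) / Real.log x)) =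
        (cop (N x) (M x) : ℝ) / Real.log x ^ 2 := by
      field_simp
    rw [e1, ← add_div]
    have hbox : ∀ (t : ℝ), 1 < t → ∀ n : ℕ, t ^ n ≤ x ↔ n ≤ ⌊(1 / Real.log t) * Real.log x⌋₊ := by
      intro t ht n
      have hlt : 0 < Real.log t := Real.log_pos ht
      rw [Nat.le_floor_iff (by positivity), one_div_mul_eq_div, le_div_iff₀ hlt, ← Real.log_pow,
        Real.log_le_log_iff (by positivity) hx0]
    set A : Set (ℕ × ℕ) := {p : ℕ × ℕ | p.1.Coprime p.2 ∧ a ^ p.1 ≤ x ∧ b ^ p.2 ≤ x} with hA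
    set F : Finset (ℕ × ℕ) := (Ioc 0 (N x) ×ˢ Ioc 0 (M x)).filter fun p => p.1.Coprime p.2 with hF
    have hFA : (F : Set (ℕ × ℕ)) ⊆ A := by
      intro p hp
      rw [mem_coe, hF, mem_filter, mem_product, mem_Ioc, mem_Ioc] at hp
      exact ⟨hp.2, (hbox a ha _).2 hp.1.1.2, (hbox b hb _).2 hp.1.2.2⟩
    have hAF : A ⊆ ((F ∪ {(0, 1), (1, 0)} : Finset (ℕ × ℕ)) : Set (ℕ × ℕ)) := by
      rintro p ⟨h1, h2, h3⟩
      rw [mem_coe, mem_union, hF, mem_filter, mem_product, mem_Ioc, mem_Ioc, mem_insert,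
        mem_singleton]
      have h4 := (hbox a ha _).1 h2
      have h5 := (hbox b hb _).1 h3
      rcases Nat.eq_zero_or_pos p.1 with h6 | h6
      · right
        left
        rw [h6, Nat.coprime_zero_left] at h1
        exact Prod.ext h6 h1
      rcases Nat.eq_zero_or_pos p.2 with h7 | h7
      · right
        right
        rw [h7, Nat.coprime_zero_right] at h1
        exact Prod.ext h1 h7
      · left
        exact ⟨⟨⟨h6, h4⟩, ⟨h7, h5⟩⟩, h1⟩
    have hAf : A.Finite := (Finset.finite_toSet _).subset hAF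
    have e2 : cop (N x) (M x) ≤ A.ncard := by
      have := Set.ncard_le_ncard hFA hAf
      rwa [Set.ncard_coe_finset] at this
    have e3 : A.ncard ≤ cop (N x) (M x) + 2 := by
      have h1 := Set.ncard_le_ncard hAF (Finset.finite_toSet _)
      rw [Set.ncard_coe_finset] at h1
      have h2 := Finset.card_union_le F {((0 : ℕ), (1 : ℕ)), (1, 0)}
      have h3 : ({((0 : ℕ), (1 : ℕ)), (1, 0)} : Finset (ℕ × ℕ)).card ≤ 2 := Finset.card_le_two
      have h4 : F.card = cop (N x) (M x) := rfl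
      omega
    constructor
    · apply div_le_div_of_nonneg_right _ (by positivity)
      exact_mod_cast e2
    · apply div_le_div_of_nonneg_right _ (by positivity)
      exact_mod_cast e3
  refine tendsto_of_tendsto_of_tendsto_of_le_of_le' t5 (by simpa using t5.add t6)
    (key.mono fun x hx => hx.1) (key.mono fun x hx => hx.2)

end Run7.h302.NC
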