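import Mathlib.Analysis.SpecialFunctions.Pow.Real
import Mathlib.Analysis.SpecialFunctions.Log.Basic
import Mathlib.Data.Set.Card
import Mathlib.Tactic

/-!
# Counting pairs with `|c a ^ n - b ^ m| ≤ x` against the box

The lemmas `cnt`, `rect_count`, `mid_count` are those of the file
`Results/MP_606be1_nt/DilatedNearCoincidences.lean`.
-/

set_option autoImplicit false

namespace Run7.h302.NC

open Real Filter Asymptotics Topology

variable {a b c : ℝ}

/-- the near misses: the pairs `(n, m)` with `|c a ^ n - b ^ m| < (c a ^ n) ^ (1/2)` -/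
def near (a b c : ℝ) : Set (ℕ × ℕ) := {p | |c * a ^ p.1 - b ^ p.2| ^ 2 < c * a ^ p.1}

/-- the number of the `n` with `c a ^ n ≤ y` -/
lemma cnt (ha : 1 < a) (hc : 0 < c) : ∃ K : ℝ, 0 ≤ K ∧ ∀ y : ℝ, 1 ≤ y →
    {n : ℕ | c * a ^ n ≤ y}.Finite ∧
      |(({n : ℕ | c * a ^ n ≤ y}.ncard : ℕ) : ℝ) - log y / log a| ≤ K := by
  have hla : 0 < log a := log_pos ha
  refine ⟨|log c| / log a + 1, by positivity, fun y hy => ?_⟩
  have hy0 : 0 < y := by linarith
  have hly : 0 ≤ log y := log_nonneg hy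
  by_cases hyc : y < c
  · have hempty : {n : ℕ | c * a ^ n ≤ y} = ∅ := by
      ext n
      simp only [Set.mem_ofPred_eq, Set.mem_empty_iff_false, iff_false, not_le]
      have h1 : 1 ≤ a ^ n := one_le_pow₀ ha.le
      nlinarith
    rw [hempty]
    refine ⟨Set.finite_empty, ?_⟩
    rw [Set.ncard_empty, Nat.cast_zero, zero_sub, abs_neg, abs_of_nonneg (by positivity)]
    have h2 : log y ≤ |log c| := (log_le_log hy0 hyc.le).trans (le_abs_self _)
    have h3 : log y / log a ≤ |log c| / log a := div_le_div_of_nonneg_right h2 hla.le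
    linarith
  · rw [not_lt] at hyc
    set t : ℝ := log (y / c) / log a with ht
    have hyc1 : 1 ≤ y / c := by rwa [le_div_iff₀ hc, one_mul]
    have ht0 : 0 ≤ t := div_nonneg (log_nonneg hyc1) hla.le
    set L : ℕ := ⌊t⌋₊ with hL
    have hset : {n : ℕ | c * a ^ n ≤ y} = ((Finset.range (L + 1) : Finset ℕ) : Set ℕ) := by
      ext n
      simp only [Set.mem_ofPred_eq, Finset.coe_range, Set.mem_Iio]
      rw [Nat.lt_succ_iff, hL, Nat.le_floor_iff ht0, ht, le_div_iff₀ hla, ← log_pow,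
        log_le_log_iff (by positivity) (by positivity), le_div_iff₀ hc, mul_comm]
    rw [hset]
    refine ⟨Finset.finite_toSet _, ?_⟩
    rw [Set.ncard_coe_finset, Finset.card_range]
    have h1 : (L : ℝ) ≤ t := Nat.floor_le ht0
    have h2 : t < (L : ℝ) + 1 := Nat.lt_floor_add_one t
    have h3 : t = log y / log a - log c / log a := by
      rw [ht, log_div hy0.ne' hc.ne', sub_div]
    have h4 : |log c / log a| = |log c| / log a := by
      rw [abs_div, abs_of_pos hla]
    have h5 := abs_le.1 (le_refl |log c / log a|)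
    rw [h4] at h5
    rw [abs_le]
    push_cast
    constructor <;> linarith [h5.1, h5.2]

/-- the pairs with `c a ^ n ≤ y`, `b ^ m ≤ z` -/
def rect (a b c y z : ℝ) : Set (ℕ × ℕ) := {p | c * a ^ p.1 ≤ y ∧ b ^ p.2 ≤ z}

lemma rect_count (ha : 1 < a) (hb : 1 < b) (hc : 0 < c) {k l : ℝ} (hk : 1 ≤ k) (hl : 1 ≤ l) :
    ∃ C : ℝ, ∀ x : ℝ, 2 ≤ x → (rect a b c (k * x) (l * x)).Finite ∧
      |(((rect a b c (k * x) (l * x)).ncard : ℕ) : ℝ) - log x ^ 2 / (log a * log b)| ≤
        C * log x := by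
  have hla : 0 < log a := log_pos ha
  have hlb : 0 < log b := log_pos hb
  obtain ⟨K, hK0, hK⟩ := cnt ha hc
  obtain ⟨J, hJ0, hJ⟩ := cnt hb one_pos
  set K1 : ℝ := K + log k / log a with hK1
  set J1 : ℝ := J + log l / log b with hJ1
  have hlk : 0 ≤ log k := log_nonneg hk
  have hll : 0 ≤ log l := log_nonneg hl
  have hK10 : 0 ≤ K1 := by positivity
  have hJ10 : 0 ≤ J1 := by positivity
  refine ⟨J1 / log a + K1 / log b + K1 * J1 / log 2, fun x hx => ?_⟩
  have hx0 : 0 < x := by linarith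
  have hk0 : 0 < k := by linarith
  have hl0 : 0 < l := by linarith
  have hlog2 : 0 < log 2 := log_pos (by norm_num)
  have hlx : log 2 ≤ log x := log_le_log (by norm_num) hx
  have hlx0 : 0 < log x := by linarith
  obtain ⟨f1, e1⟩ := hK (k * x) (by nlinarith)
  obtain ⟨f2, e2⟩ := hJ (l * x) (by nlinarith)
  have hset : rect a b c (k * x) (l * x) =
      {n : ℕ | c * a ^ n ≤ k * x} ×ˢ {m : ℕ | 1 * b ^ m ≤ l * x} := by
    ext p
    simp only [rect, Set.mem_ofPred_eq, Set.mem_prod, one_mul]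
  rw [hset]
  refine ⟨f1.prod f2, ?_⟩
  rw [Set.ncard_prod, Nat.cast_mul]
  set N1 : ℝ := (({n : ℕ | c * a ^ n ≤ k * x}.ncard : ℕ) : ℝ) with hN1
  set N2 : ℝ := (({m : ℕ | 1 * b ^ m ≤ l * x}.ncard : ℕ) : ℝ) with hN2
  have g1 : |N1 - log x / log a| ≤ K1 := by
    rw [log_mul hk0.ne' hx0.ne', add_div] at e1
    have h1 : 0 ≤ log k / log a := by positivity
    rw [abs_le] at e1 ⊢
    constructor <;> linarith [e1.1, e1.2]
  have g2 : |N2 - log x / log b| ≤ J1 := by
    rw [log_mul hl0.ne' hx0.ne', add_div] at e2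
    have h1 : 0 ≤ log l / log b := by positivity
    rw [abs_le] at e2 ⊢
    constructor <;> linarith [e2.1, e2.2]
  have h1 : N1 * N2 - log x ^ 2 / (log a * log b) =
      log x / log a * (N2 - log x / log b) + (N1 - log x / log a) * (log x / log b) +
        (N1 - log x / log a) * (N2 - log x / log b) := by
    field_simp
    ring
  rw [h1]
  have hA : 0 ≤ log x / log a := by positivity
  have hB : 0 ≤ log x / log b := by positivity
  calc |log x / log a * (N2 - log x / log b) + (N1 - log x / log a) * (log x / log b) +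
        (N1 - log x / log a) * (N2 - log x / log b)|
      ≤ |log x / log a * (N2 - log x / log b)| + |(N1 - log x / log a) * (log x / log b)| +
        |(N1 - log x / log a) * (N2 - log x / log b)| := abs_add_three _ _ _
    _ = log x / log a * |N2 - log x / log b| + |N1 - log x / log a| * (log x / log b) +
        |N1 - log x / log a| * |N2 - log x / log b| := by
        rw [abs_mul, abs_mul, abs_mul, abs_of_nonneg hA, abs_of_nonneg hB]
    _ ≤ log x / log a * J1 + K1 * (log x / log b) + K1 * J1 := by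
        gcongr
    _ ≤ log x / log a * J1 + K1 * (log x / log b) + K1 * J1 / log 2 * log x := by
        have : K1 * J1 ≤ K1 * J1 / log 2 * log x := by
          rw [div_mul_eq_mul_div, le_div_iff₀ hlog2]
          exact mul_le_mul_of_nonneg_left hlx (by positivity)
        linarith
    _ = (J1 / log a + K1 / log b + K1 * J1 / log 2) * log x := by ring

/-- the middle range -/
def mid (a b c x : ℝ) : Set (ℕ × ℕ) :=
  {p | c * a ^ p.1 ≤ x ^ 2 ∧ 2 * x < c * a ^ p.1 ∧ |c * a ^ p.1 - b ^ p.2| ≤ x}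

lemma mid_count (ha : 1 < a) (hb : 1 < b) (hc : 0 < c) :
    ∃ C : ℝ, ∀ x : ℝ, 2 ≤ x → (mid a b c x).Finite ∧
      (((mid a b c x).ncard : ℕ) : ℝ) ≤ C * log x := by
  have hla : 0 < log a := log_pos ha
  obtain ⟨K, hK0, hK⟩ := cnt ha hc
  obtain ⟨R, hR⟩ := pow_unbounded_of_one_lt (3 : ℝ) hb
  have hlog2 : 0 < log 2 := log_pos (by norm_num)
  have hR0 : 0 < R := by
    rcases Nat.eq_zero_or_pos R with h | h
    · rw [h] at hR
      norm_num at hR
    · exact h
  refine ⟨(2 / log a + K / log 2) * R, fun x hx => ?_⟩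
  have hx0 : 0 < x := by linarith
  have hlx : log 2 ≤ log x := log_le_log (by norm_num) hx
  obtain ⟨f1, e1⟩ := hK (x ^ 2) (by nlinarith)
  set T : Set (ℕ × ℕ) := {n : ℕ | c * a ^ n ≤ x ^ 2} ×ˢ ((Finset.range R : Finset ℕ) : Set ℕ)
    with hT
  have hTf : T.Finite := f1.prod (Finset.finite_toSet _)
  set φ : ℕ × ℕ → ℕ × ℕ := fun p => (p.1, p.2 % R) with hφ
  have hmaps : Set.MapsTo φ (mid a b c x) T := by
    rintro p ⟨h1, -, -⟩
    refine ⟨h1, ?_⟩
    simp only [hφ, Finset.coe_range, Set.mem_Iio]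
    exact Nat.mod_lt _ hR0
  have key : ∀ p ∈ mid a b c x, ∀ q ∈ mid a b c x, p.1 = q.1 → q.2 < p.2 + R := by
    rintro p ⟨-, h2, h3⟩ q ⟨-, h5, h6⟩ hpq
    have h7 := (abs_le.1 h3).2
    have h8 := (abs_le.1 h6).1
    rw [hpq] at h2 h7
    have h9 : b ^ q.2 < 3 * b ^ p.2 := by linarith
    have h10 : b ^ q.2 < b ^ (p.2 + R) := by
      calc b ^ q.2 < 3 * b ^ p.2 := h9
        _ ≤ b ^ R * b ^ p.2 := mul_le_mul_of_nonneg_right hR.le (by positivity)
        _ = b ^ (p.2 + R) := by rw [pow_add]; ring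
    exact (pow_lt_pow_iff_right₀ hb).1 h10
  have hinj : Set.InjOn φ (mid a b c x) := by
    intro p hp q hq h
    simp only [hφ, Prod.mk.injEq] at h
    obtain ⟨h1, h2⟩ := h
    have h3 := key p hp q hq h1
    have h4 := key q hq p hp h1.symm
    have h5 : p.2 = q.2 := by
      have e1 := Nat.div_add_mod p.2 R
      have e2 := Nat.div_add_mod q.2 R
      have e3 : R * (q.2 / R) < R * (p.2 / R) + R := by omega
      have e4 : R * (p.2 / R) < R * (q.2 / R) + R := by omega
      have e5 : q.2 / R < p.2 / R + 1 := by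
        by_contra hcon
        push Not at hcon
        have := Nat.mul_le_mul_left R hcon
        rw [mul_add, mul_one] at this
        omega
      have e6 : p.2 / R < q.2 / R + 1 := by
        by_contra hcon
        push Not at hcon
        have := Nat.mul_le_mul_left R hcon
        rw [mul_add, mul_one] at this
        omega
      have e7 : p.2 / R = q.2 / R := by omega
      rw [e7] at e1
      omega
    exact Prod.ext h1 h5
  refine ⟨Set.Finite.of_injOn hmaps hinj hTf, ?_⟩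
  have h1 : (mid a b c x).ncard ≤ T.ncard := Set.ncard_le_ncard_of_injOn φ hmaps hinj hTf
  rw [hT, Set.ncard_prod, Set.ncard_coe_finset, Finset.card_range] at h1
  have h2 : (({n : ℕ | c * a ^ n ≤ x ^ 2}.ncard : ℕ) : ℝ) ≤ 2 * log x / log a + K := by
    have := (abs_le.1 e1).2
    rw [log_pow] at this
    push_cast at this
    linarith
  have hR' : (0 : ℝ) ≤ R := Nat.cast_nonneg R
  calc (((mid a b c x).ncard : ℕ) : ℝ)
      ≤ (({n : ℕ | c * a ^ n ≤ x ^ 2}.ncard : ℕ) : ℝ) * R := by exact_mod_cast h1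
    _ ≤ (2 * log x / log a + K) * R := mul_le_mul_of_nonneg_right h2 hR'
    _ ≤ (2 * log x / log a + K / log 2 * log x) * R := by
        have : K ≤ K / log 2 * log x := by
          rw [div_mul_eq_mul_div, le_div_iff₀ hlog2]
          exact mul_le_mul_of_nonneg_left hlx hK0
        exact mul_le_mul_of_nonneg_right (by linarith) hR'
    _ = (2 / log a + K / log 2) * R * log x := by ring


/-- the near misses with `n ≤ T` are finite in number -/
theorem near_fin (ha : 1 < a) (hb : 1 < b) (hc : 0 < c) (T : ℝ) :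
    {p : ℕ × ℕ | (p.1 : ℝ) ≤ T ∧ p ∈ near a b c}.Finite := by
  obtain ⟨N, hN⟩ := exists_nat_ge T
  obtain ⟨M, hM⟩ := pow_unbounded_of_one_lt (2 * (c * a ^ N) + 1) hb
  refine ((Finset.range (N + 1) ×ˢ Finset.range (M + 1) : Finset (ℕ × ℕ)).finite_toSet).subset ?_
  rintro p ⟨h1, h2⟩
  have hp1 : p.1 ≤ N := by exact_mod_cast h1.trans hN
  have h3 : c * a ^ p.1 ≤ c * a ^ N :=
    mul_le_mul_of_nonneg_left (pow_le_pow_right₀ ha.le hp1) hc.le
  have h4 : 0 < c * a ^ p.1 := by positivity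
  simp only [near, Set.mem_ofPred_eq] at h2
  have h5 : |c * a ^ p.1 - b ^ p.2| ≤ c * a ^ p.1 + 1 := by
    by_contra hcon
    push Not at hcon
    nlinarith
  have h6 := (abs_le.1 h5).1
  have h7 : b ^ p.2 < b ^ M := by linarith
  have h8 : p.2 < M := (pow_lt_pow_iff_right₀ hb).1 h7
  rw [Finset.mem_coe, Finset.mem_product, Finset.mem_range, Finset.mem_range]
  exact ⟨by omega, by omega⟩

/-- **The number of the pairs of a set `S` with `n ≤ T` and `|c a ^ n - b ^ m| ≤ x` is that of the pairs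
of `S` in the box `c a ^ n ≤ x`, `b ^ m ≤ x`, up to `O(log x)` and the near misses.** -/
theorem box_diff (ha : 1 < a) (hb : 1 < b) (hc : 0 < c) :
    ∃ C : ℝ, 0 ≤ C ∧ ∀ (S : Set (ℕ × ℕ)) (x T : ℝ), 2 ≤ x → C * log x ≤ T →
      {p | p ∈ S ∧ (p.1 : ℝ) ≤ T ∧ |c * a ^ p.1 - b ^ p.2| ≤ x}.Finite ∧
      {p | p ∈ S ∧ c * a ^ p.1 ≤ x ∧ b ^ p.2 ≤ x}.Finite ∧
      |(({p | p ∈ S ∧ (p.1 : ℝ) ≤ T ∧ |c * a ^ p.1 - b ^ p.2| ≤ x}.ncard : ℕ) : ℝ) -
        (({p | p ∈ S ∧ c * a ^ p.1 ≤ x ∧ b ^ p.2 ≤ x}.ncard : ℕ) : ℝ)| ≤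
        C * log x + (({p : ℕ × ℕ | p ∈ S ∧ (p.1 : ℝ) ≤ T ∧ p ∈ near a b c}.ncard : ℕ) : ℝ) := by
  have hla : 0 < log a := log_pos ha
  obtain ⟨C1, h1⟩ := rect_count ha hb hc (le_refl (1 : ℝ)) (le_refl (1 : ℝ))
  obtain ⟨C2, h2⟩ := rect_count ha hb hc (by norm_num : (1 : ℝ) ≤ 2) (by norm_num : (1 : ℝ) ≤ 3)
  obtain ⟨C3, h3⟩ := mid_count ha hb hc
  have hlog2 : 0 < log 2 := log_pos (by norm_num)
  set D : ℝ := 1 / log a + |log c| / log a / log 2 with hD
  have hD0 : 0 ≤ D := by positivity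
  refine ⟨|C1| + |C2| + |C3| + D, by positivity, fun S x T hx hT => ?_⟩
  have hx0 : 0 < x := by linarith
  have hlx : log 2 ≤ log x := log_le_log (by norm_num) hx
  have hlx0 : 0 < log x := by linarith
  obtain ⟨f1, e1⟩ := h1 x hx
  obtain ⟨f2, e2⟩ := h2 x hx
  obtain ⟨f3, e3⟩ := h3 x hx
  rw [one_mul] at f1 e1
  have hTn : ∀ n : ℕ, c * a ^ n ≤ x → (n : ℝ) ≤ T := by
    intro n hn
    have e4 : log c + n * log a ≤ log x := by
      rw [← log_pow, ← log_mul hc.ne' (by positivity)]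
      exact log_le_log (by positivity) hn
    have e5 : -log c ≤ |log c| := neg_le_abs _
    have e6 : (n : ℝ) * log a ≤ log x + |log c| := by linarith
    have e7 : (n : ℝ) ≤ D * log x := by
      rw [hD, add_mul]
      have e8 : |log c| / log a ≤ |log c| / log a / log 2 * log x := by
        rw [div_mul_eq_mul_div, le_div_iff₀ hlog2]
        exact mul_le_mul_of_nonneg_left hlx (by positivity)
      have e9 : (n : ℝ) ≤ (log x + |log c|) / log a := by
        rw [le_div_iff₀ hla]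
        exact e6
      rw [add_div] at e9
      have e10 : log x / log a = 1 / log a * log x := by ring
      linarith
    have e8 : D * log x ≤ (|C1| + |C2| + |C3| + D) * log x :=
      mul_le_mul_of_nonneg_right (by linarith [abs_nonneg C1, abs_nonneg C2, abs_nonneg C3]) hlx0.le
    linarith
  have hlow : rect a b c x x ⊆ rect a b c (2 * x) (3 * x) := by
    rintro p ⟨h4, h5⟩
    exact ⟨by linarith, by linarith⟩
  have hnf : {p : ℕ × ℕ | p ∈ S ∧ (p.1 : ℝ) ≤ T ∧ p ∈ near a b c}.Finite :=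
    (near_fin ha hb hc T).subset fun p hp => hp.2
  set A : Set (ℕ × ℕ) := {p | p ∈ S ∧ (p.1 : ℝ) ≤ T ∧ |c * a ^ p.1 - b ^ p.2| ≤ x} with hA
  set B : Set (ℕ × ℕ) := {p | p ∈ S ∧ c * a ^ p.1 ≤ x ∧ b ^ p.2 ≤ x} with hB
  set N : Set (ℕ × ℕ) := {p : ℕ × ℕ | p ∈ S ∧ (p.1 : ℝ) ≤ T ∧ p ∈ near a b c} with hN
  have hBf : B.Finite := f1.subset fun p hp => hp.2
  have hBA : B ⊆ A := by
    rintro p ⟨h4, h5, h6⟩
    refine ⟨h4, hTn p.1 h5, ?_⟩
    have h7 : 0 < c * a ^ p.1 := by positivity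
    have h8 : 0 < b ^ p.2 := by positivity
    rw [abs_le]
    constructor <;> linarith
  have hAB : A \ B ⊆ (rect a b c (2 * x) (3 * x) \ rect a b c x x) ∪ mid a b c x ∪ N := by
    rintro p ⟨⟨h4, h5, h6⟩, h7⟩
    by_cases h8 : p ∈ near a b c
    · exact Or.inr ⟨h4, h5, h8⟩
    · left
      by_cases h9 : c * a ^ p.1 ≤ 2 * x
      · left
        refine ⟨⟨h9, ?_⟩, fun h10 => h7 ⟨h4, h10.1, h10.2⟩⟩
        have := (abs_le.1 h6).1
        linarith
      · right
        rw [not_le] at h9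
        simp only [near, Set.mem_ofPred_eq, not_lt] at h8
        refine ⟨h8.trans ?_, h9, h6⟩
        exact pow_le_pow_left₀ (abs_nonneg _) h6 2
  have hUf : ((rect a b c (2 * x) (3 * x) \ rect a b c x x) ∪ mid a b c x ∪ N).Finite :=
    ((f2.subset Set.sdiff_subset).union f3).union hnf
  have hABf : (A \ B).Finite := hUf.subset hAB
  have hAf : A.Finite := by
    have h4 : A = (A \ B) ∪ B := (Set.sdiff_union_of_subset hBA).symm
    rw [h4]
    exact hABf.union hBf
  refine ⟨hAf, hBf, ?_⟩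
  have h4 : (A \ B).ncard + B.ncard = A.ncard := Set.ncard_sdiff_add_ncard_of_subset hBA hAf
  have h5 : (A \ B).ncard ≤ (rect a b c (2 * x) (3 * x) \ rect a b c x x).ncard +
      (mid a b c x).ncard + N.ncard := by
    refine (Set.ncard_le_ncard hAB hUf).trans ?_
    refine (Set.ncard_union_le _ _).trans ?_
    exact Nat.add_le_add_right (Set.ncard_union_le _ _) _
  have h6 : (rect a b c (2 * x) (3 * x) \ rect a b c x x).ncard + (rect a b c x x).ncard =
      (rect a b c (2 * x) (3 * x)).ncard := Set.ncard_sdiff_add_ncard_of_subset hlow f2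
  have h7 : (((rect a b c (2 * x) (3 * x) \ rect a b c x x).ncard : ℕ) : ℝ) ≤
      (|C1| + |C2|) * log x := by
    have e4 : (((rect a b c (2 * x) (3 * x) \ rect a b c x x).ncard : ℕ) : ℝ) =
        ((rect a b c (2 * x) (3 * x)).ncard : ℝ) - ((rect a b c x x).ncard : ℝ) := by
      rw [← h6]
      push_cast
      ring
    rw [e4]
    have e5 := (abs_le.1 e1).1
    have e6 := (abs_le.1 e2).2
    have e7 : C1 * log x ≤ |C1| * log x := mul_le_mul_of_nonneg_right (le_abs_self _) hlx0.le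
    have e8 : C2 * log x ≤ |C2| * log x := mul_le_mul_of_nonneg_right (le_abs_self _) hlx0.le
    linarith
  have h8 : (((mid a b c x).ncard : ℕ) : ℝ) ≤ |C3| * log x :=
    e3.trans (mul_le_mul_of_nonneg_right (le_abs_self _) hlx0.le)
  have h9 : ((A.ncard : ℕ) : ℝ) - ((B.ncard : ℕ) : ℝ) = (((A \ B).ncard : ℕ) : ℝ) := by
    rw [← h4]
    push_cast
    ring
  rw [h9, abs_of_nonneg (Nat.cast_nonneg _)]
  have h10 : (((A \ B).ncard : ℕ) : ℝ) ≤
      (((rect a b c (2 * x) (3 * x) \ rect a b c x x).ncard : ℕ) : ℝ) +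
      (((mid a b c x).ncard : ℕ) : ℝ) + ((N.ncard : ℕ) : ℝ) := by exact_mod_cast h5
  have h11 : 0 ≤ D * log x := by positivity
  nlinarith

/-- the box for all pairs -/
theorem box_all (ha : 1 < a) (hb : 1 < b) (hc : 0 < c) :
    ∃ C : ℝ, 0 ≤ C ∧ ∀ x : ℝ, 2 ≤ x →
      |(({p : ℕ × ℕ | c * a ^ p.1 ≤ x ∧ b ^ p.2 ≤ x}.ncard : ℕ) : ℝ) -
        log x ^ 2 / (log a * log b)| ≤ C * log x := by
  obtain ⟨C1, h1⟩ := rect_count ha hb hc (le_refl (1 : ℝ)) (le_refl (1 : ℝ))
  refine ⟨|C1|, abs_nonneg _, fun x hx => ?_⟩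
  obtain ⟨f1, e1⟩ := h1 x hx
  rw [one_mul] at f1 e1
  refine le_trans e1 (mul_le_mul_of_nonneg_right (le_abs_self _) (log_nonneg (by linarith)))

end Run7.h302.NC
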