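import Pool.Agent.Run7.h302.NC.Sep
import Pool.Agent.Run7.h302.NC.Alg
import Mathlib.Analysis.SpecialFunctions.Trigonometric.Bounds

/-!
# Near-coincidences of powers of two complex numbers
-/

set_option autoImplicit false

namespace Run7.h302.NC

open Real Filter Asymptotics Topology

/-- the complex near misses -/
def cnear (α β : ℂ) : Set (ℕ × ℕ) := {p | ‖α ^ p.1 - β ^ p.2‖ ^ 2 < ‖α‖ ^ p.1}

lemma real_le (α β : ℂ) (p : ℕ × ℕ) : |1 * ‖α‖ ^ p.1 - ‖β‖ ^ p.2| ≤ ‖α ^ p.1 - β ^ p.2‖ := by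
  rw [one_mul, ← norm_pow, ← norm_pow]
  exact abs_norm_sub_norm_le _ _

lemma cnear_sub (α β : ℂ) : cnear α β ⊆ near ‖α‖ ‖β‖ 1 := by
  intro p hp
  simp only [cnear, Set.mem_ofPred_eq] at hp
  simp only [near, Set.mem_ofPred_eq]
  refine lt_of_le_of_lt (pow_le_pow_left₀ (abs_nonneg _) (real_le α β p) 2) ?_
  rwa [one_mul]

/-- the upper set -/
def upper (a b x : ℝ) : Set (ℕ × ℕ) := rect a b 1 (2 * x) (3 * x) ∪ mid a b 1 x

lemma upper_count {a b : ℝ} (ha : 1 < a) (hb : 1 < b) : ∃ C : ℝ, 0 ≤ C ∧ ∀ x : ℝ, 2 ≤ x →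
    (upper a b x).Finite ∧
      (((upper a b x).ncard : ℕ) : ℝ) ≤ log x ^ 2 / (log a * log b) + C * log x := by
  obtain ⟨C2, h2⟩ := rect_count ha hb one_pos (by norm_num : (1 : ℝ) ≤ 2)
    (by norm_num : (1 : ℝ) ≤ 3)
  obtain ⟨C3, h3⟩ := mid_count ha hb one_pos
  refine ⟨|C2| + |C3|, by positivity, fun x hx => ?_⟩
  have hlx : 0 ≤ log x := log_nonneg (by linarith)
  obtain ⟨f2, e2⟩ := h2 x hx
  obtain ⟨f3, e3⟩ := h3 x hx
  refine ⟨f2.union f3, ?_⟩
  have h4 : (((upper a b x).ncard : ℕ) : ℝ) ≤ ((rect a b 1 (2 * x) (3 * x)).ncard : ℝ) +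
      ((mid a b 1 x).ncard : ℝ) := by
    exact_mod_cast Set.ncard_union_le _ _
  have e4 := (abs_le.1 e2).2
  have e7 : C2 * log x ≤ |C2| * log x := mul_le_mul_of_nonneg_right (le_abs_self _) hlx
  have e8 : C3 * log x ≤ |C3| * log x := mul_le_mul_of_nonneg_right (le_abs_self _) hlx
  rw [add_mul]
  linarith

lemma lower_count {a b : ℝ} (ha : 1 < a) (hb : 1 < b) : ∃ C : ℝ, 0 ≤ C ∧ ∀ x : ℝ, 2 ≤ x →
    ∀ A : Set (ℕ × ℕ), A.Finite → (∀ p : ℕ × ℕ, a ^ p.1 ≤ x / 2 → b ^ p.2 ≤ x / 2 → p ∈ A) →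
      log x ^ 2 / (log a * log b) - C * log x ≤ (A.ncard : ℝ) := by
  have hla : 0 < log a := log_pos ha
  have hlb : 0 < log b := log_pos hb
  have hl2 : 0 < log 2 := log_pos (by norm_num)
  obtain ⟨C1, h1⟩ := rect_count ha hb one_pos (le_refl (1 : ℝ)) (le_refl (1 : ℝ))
  refine ⟨|C1| + 2 * log 4 / (log a * log b), by positivity, fun x hx A hA hsub => ?_⟩
  have hlx : 0 ≤ log x := log_nonneg (by linarith)
  rcases le_or_gt 4 x with h | h
  · obtain ⟨f1, e1⟩ := h1 (x / 2) (by linarith)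
    rw [one_mul] at f1 e1
    have h2 : rect a b 1 (x / 2) (x / 2) ⊆ A := by
      rintro p ⟨h3, h4⟩
      rw [one_mul] at h3
      exact hsub p h3 h4
    have h3 : ((rect a b 1 (x / 2) (x / 2)).ncard : ℝ) ≤ A.ncard := by
      exact_mod_cast Set.ncard_le_ncard h2 hA
    have h4 := (abs_le.1 e1).1
    have h5 : log (x / 2) = log x - log 2 := log_div (by linarith) (by norm_num)
    have h6 : 0 ≤ log (x / 2) := log_nonneg (by linarith)
    have h7 : C1 * log (x / 2) ≤ |C1| * log x := by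
      calc C1 * log (x / 2) ≤ |C1| * log (x / 2) := mul_le_mul_of_nonneg_right (le_abs_self _) h6
        _ ≤ |C1| * log x := mul_le_mul_of_nonneg_left (by linarith) (abs_nonneg _)
    have h8 : log x ^ 2 / (log a * log b) - log (x / 2) ^ 2 / (log a * log b) ≤
        2 * log 4 / (log a * log b) * log x := by
      rw [← sub_div, div_mul_eq_mul_div]
      apply div_le_div_of_nonneg_right _ (by positivity)
      rw [h5]
      have h9 : log 4 = 2 * log 2 := by
        rw [show (4 : ℝ) = 2 ^ 2 by norm_num, log_pow]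
        push_cast
        ring
      rw [h9]
      nlinarith
    rw [add_mul]
    linarith
  · have h2 : log x ≤ log 4 := log_le_log (by linarith) h.le
    have h3 : log x ^ 2 / (log a * log b) ≤ 2 * log 4 / (log a * log b) * log x := by
      rw [div_mul_eq_mul_div]
      apply div_le_div_of_nonneg_right _ (by positivity)
      nlinarith
    have h4 : 0 ≤ |C1| * log x := by positivity
    have h5 : (0 : ℝ) ≤ A.ncard := Nat.cast_nonneg _
    rw [add_mul]
    linarith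

/-- the count if there are finitely many near misses -/
theorem ccount {α β : ℂ} (ha : 1 < ‖α‖) (hb : 1 < ‖β‖) (hn : (cnear α β).Finite) :
    ∃ C : ℝ, ∀ x : ℝ, 2 ≤ x → {p : ℕ × ℕ | ‖α ^ p.1 - β ^ p.2‖ ≤ x}.Finite ∧
      |(({p : ℕ × ℕ | ‖α ^ p.1 - β ^ p.2‖ ≤ x}.ncard : ℕ) : ℝ) -
        log x ^ 2 / (log ‖α‖ * log ‖β‖)| ≤ C * log x := by
  obtain ⟨C1, hC1, h1⟩ := upper_count ha hb
  obtain ⟨C2, hC2, h2⟩ := lower_count ha hb
  have hl2 : 0 < log 2 := log_pos (by norm_num)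
  refine ⟨C1 + C2 + ((cnear α β).ncard : ℝ) / log 2, fun x hx => ?_⟩
  have hlx : log 2 ≤ log x := log_le_log (by norm_num) hx
  obtain ⟨f1, e1⟩ := h1 x hx
  have hsub : {p : ℕ × ℕ | ‖α ^ p.1 - β ^ p.2‖ ≤ x} ⊆ upper ‖α‖ ‖β‖ x ∪ cnear α β := by
    intro p hp
    simp only [Set.mem_ofPred_eq] at hp
    by_cases h3 : p ∈ cnear α β
    · exact Or.inr h3
    · left
      have h4 := (real_le α β p).trans hp
      simp only [cnear, Set.mem_ofPred_eq, not_lt] at h3
      by_cases h5 : 1 * ‖α‖ ^ p.1 ≤ 2 * x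
      · left
        refine ⟨h5, ?_⟩
        have := (abs_le.1 h4).1
        linarith
      · right
        rw [not_le] at h5
        refine ⟨?_, h5, h4⟩
        rw [one_mul]
        exact h3.trans (pow_le_pow_left₀ (norm_nonneg _) hp 2)
  have hfin := (f1.union hn).subset hsub
  refine ⟨hfin, ?_⟩
  have h3 : (({p : ℕ × ℕ | ‖α ^ p.1 - β ^ p.2‖ ≤ x}.ncard : ℕ) : ℝ) ≤
      ((upper ‖α‖ ‖β‖ x).ncard : ℝ) + ((cnear α β).ncard : ℝ) := by
    have h4 := Set.ncard_le_ncard hsub (f1.union hn)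
    have h5 := Set.ncard_union_le (upper ‖α‖ ‖β‖ x) (cnear α β)
    exact_mod_cast h4.trans h5
  have h4 := h2 x hx _ hfin (by
    intro p h5 h6
    simp only [Set.mem_ofPred_eq]
    refine (norm_sub_le _ _).trans ?_
    rw [norm_pow, norm_pow]
    linarith)
  have h5 : ((cnear α β).ncard : ℝ) ≤ ((cnear α β).ncard : ℝ) / log 2 * log x := by
    rw [div_mul_eq_mul_div, le_div_iff₀ hl2]
    exact mul_le_mul_of_nonneg_left hlx (Nat.cast_nonneg _)
  have h6 : 0 ≤ ((cnear α β).ncard : ℝ) / log 2 * log x :=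
    mul_nonneg (div_nonneg (Nat.cast_nonneg _) hl2.le) (by linarith)
  have h7 : 0 ≤ C1 * log x := mul_nonneg hC1 (by linarith)
  have h8 : 0 ≤ C2 * log x := mul_nonneg hC2 (by linarith)
  rw [abs_le, add_mul, add_mul]
  constructor <;> linarith

/-- the distance from `1` on the unit circle -/
lemma circle (y : ℝ) : 4 * |y - round y| ≤ ‖Complex.exp (2 * π * y * Complex.I) - 1‖ := by
  set z : ℝ := y - round y with hz
  have h1 : Complex.exp (2 * π * y * Complex.I) = Complex.exp (Complex.I * ((2 * π * z : ℝ) : ℂ)) := by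
    have h2 : (2 * π * y * Complex.I : ℂ) = Complex.I * ((2 * π * z : ℝ) : ℂ) +
        (round y : ℤ) * (2 * π * Complex.I) := by
      rw [hz]
      push_cast
      ring
    rw [h2, Complex.exp_add, Complex.exp_int_mul_two_pi_mul_I, mul_one]
  rw [h1, Complex.norm_exp_I_mul_ofReal_sub_one]
  have h3 : |z| ≤ 1 / 2 := abs_sub_round y
  have h4 : |π * z| ≤ π / 2 := by
    rw [abs_mul, abs_of_pos pi_pos]
    nlinarith [pi_pos]
  have h5 := mul_abs_le_abs_sin h4
  rw [abs_mul, abs_of_pos pi_pos] at h5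
  have h6 : 2 / π * (π * |z|) = 2 * |z| := by
    have := pi_pos.ne'
    field_simp
  rw [h6] at h5
  have h7 : 2 * π * z / 2 = π * z := by ring
  rw [h7, norm_mul, Real.norm_eq_abs, Real.norm_eq_abs, abs_of_pos (by norm_num : (0 : ℝ) < 2)]
  linarith

/-- a near miss has an almost integral argument -/
theorem near_arg {α β : ℂ} (ha : 1 < ‖α‖) (hb : 1 < ‖β‖) {t s : ℝ}
    (hα : α = ‖α‖ * Complex.exp (2 * π * t * Complex.I))
    (hβ : β = ‖β‖ * Complex.exp (2 * π * s * Complex.I)) : ∃ n₁ : ℕ, 1 ≤ n₁ ∧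
    ∀ p ∈ cnear α β, n₁ ≤ p.1 →
      |((p.1 : ℝ) * t - p.2 * s) - round ((p.1 : ℝ) * t - p.2 * s)| ≤ 1 / √‖α‖ ^ p.1 := by
  obtain ⟨n₁, hn₁⟩ := pow_unbounded_of_one_lt (4 : ℝ) ha
  refine ⟨n₁ + 1, by omega, fun p hp hn => ?_⟩
  set a : ℝ := ‖α‖ with hadef
  set b : ℝ := ‖β‖ with hbdef
  have ha0 : 0 < a := by linarith
  have hb0 : 0 < b := by linarith
  set n := p.1 with hndef
  set m := p.2 with hmdef
  set S : ℝ := √a ^ n with hS
  have hS0 : 0 < S := pow_pos (sqrt_pos.2 ha0) n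
  have hSS : S * S = a ^ n := by rw [hS, ← mul_pow, mul_self_sqrt ha0.le]
  have han : 4 < a ^ n := hn₁.trans_le (pow_le_pow_right₀ ha.le (by omega))
  have hS2 : 2 < S := by nlinarith
  simp only [cnear, Set.mem_ofPred_eq] at hp
  have h1 : ‖α ^ n - β ^ m‖ < S := by
    refine lt_of_pow_lt_pow_left₀ 2 hS0.le ?_
    rw [sq S, hSS]
    exact hp
  have hnα : ‖α ^ n‖ = a ^ n := norm_pow _ _
  have hnβ : ‖β ^ m‖ = b ^ m := norm_pow _ _
  have h2 : a ^ n - b ^ m < S := by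
    have := (norm_sub_norm_le (α ^ n) (β ^ m)).trans_lt h1
    rwa [hnα, hnβ] at this
  have h3 : S * S ≤ 2 * b ^ m := by nlinarith
  have hbm : 0 < b ^ m := pow_pos hb0 m
  have hβ0 : β ^ m ≠ 0 := by
    intro h0
    rw [h0, norm_zero] at hnβ
    linarith
  set u : ℂ := α ^ n / β ^ m with hu
  have h4 : ‖u - 1‖ ≤ 2 / S := by
    have h5 : u - 1 = (α ^ n - β ^ m) / β ^ m := by
      rw [hu]
      field_simp
    rw [h5, norm_div, hnβ, div_le_div_iff₀ hbm hS0]
    nlinarith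
  set y : ℝ := (n : ℝ) * t - m * s with hy
  set e : ℂ := Complex.exp (2 * π * y * Complex.I) with he
  have he1 : ‖e‖ = 1 := by
    rw [he, show (2 * π * y * Complex.I : ℂ) = ((2 * π * y : ℝ) : ℂ) * Complex.I by push_cast; ring]
    exact Complex.norm_exp_ofReal_mul_I _
  have h5 : u = (‖u‖ : ℂ) * e := by
    have h6 : ‖u‖ = a ^ n / b ^ m := by rw [hu, norm_div, hnα, hnβ]
    rw [h6, hu]
    have h7 : α ^ n = (a : ℂ) ^ n * Complex.exp (n * (2 * π * t * Complex.I)) := by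
      rw [hα, mul_pow, ← Complex.exp_nat_mul]
    have h8 : β ^ m = (b : ℂ) ^ m * Complex.exp (m * (2 * π * s * Complex.I)) := by
      rw [hβ, mul_pow, ← Complex.exp_nat_mul]
    have h9 : e = Complex.exp (n * (2 * π * t * Complex.I)) /
        Complex.exp (m * (2 * π * s * Complex.I)) := by
      rw [he, ← Complex.exp_sub]
      congr 1
      rw [hy]
      push_cast
      ring
    rw [h7, h8, h9]
    push_cast
    rw [mul_div_mul_comm]
  have h6 : ‖e - 1‖ ≤ 2 * ‖u - 1‖ := by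
    have h7 : ‖e - u‖ ≤ ‖u - 1‖ := by
      have h8 : e - u = (1 - (‖u‖ : ℂ)) * e := by
        nth_rewrite 1 [h5]
        ring
      rw [h8, norm_mul, he1, mul_one]
      have h9 : (1 - (‖u‖ : ℂ)) = ((1 - ‖u‖ : ℝ) : ℂ) := by push_cast; ring
      rw [h9, Complex.norm_real, Real.norm_eq_abs]
      have h10 := abs_norm_sub_norm_le (1 : ℂ) u
      rw [norm_one, norm_sub_rev (1 : ℂ) u] at h10
      exact h10
    calc ‖e - 1‖ = ‖(e - u) + (u - 1)‖ := by ring_nf
      _ ≤ ‖e - u‖ + ‖u - 1‖ := norm_add_le _ _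
      _ ≤ 2 * ‖u - 1‖ := by linarith
  have h7 := circle y
  have h8 : 4 * |y - round y| ≤ 4 * (1 / S) := by
    calc 4 * |y - round y| ≤ ‖e - 1‖ := h7
      _ ≤ 2 * (2 / S) := h6.trans (mul_le_mul_of_nonneg_left h4 (by norm_num))
      _ = 4 * (1 / S) := by ring
  linarith

/-- exponentials beat powers -/
lemma exp_beats {q : ℝ} (hq : 1 < q) (κ : ℕ) (L : ℝ) : ∃ n₂ : ℕ, ∀ n : ℕ, n₂ ≤ n →
    L * (n : ℝ) ^ κ < q ^ n := by
  have h1 : Tendsto (fun n : ℕ => ((n : ℝ) ^ κ) / q ^ n) atTop (𝓝 0) :=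
    tendsto_pow_const_div_const_pow_of_one_lt κ hq
  have h2 : ∀ᶠ n : ℕ in atTop, ((n : ℝ) ^ κ) / q ^ n < 1 / (|L| + 1) :=
    h1.eventually_lt_const (by positivity)
  obtain ⟨n₂, h3⟩ := eventually_atTop.1 h2
  refine ⟨n₂, fun n hn => ?_⟩
  have h4 := h3 n hn
  have hqn : 0 < q ^ n := by positivity
  rw [div_lt_div_iff₀ hqn (by positivity), one_mul] at h4
  have h5 : 0 ≤ (n : ℝ) ^ κ := by positivity
  have h6 : L ≤ |L| := le_abs_self L
  nlinarith

/-- **the near misses are finite in number, unless the numbers are multiplicatively dependent** -/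
theorem cnear_finite {α β : ℂ} (ha : 1 < ‖α‖) (hb : 1 < ‖β‖) {t s : ℝ}
    (hα : α = ‖α‖ * Complex.exp (2 * π * t * Complex.I))
    (hβ : β = ‖β‖ * Complex.exp (2 * π * s * Complex.I))
    (hT : Tame t s) (hirr : Irrational t ∨ Irrational s)
    (hind : ¬ ∃ n m : ℕ, 0 < n ∧ 0 < m ∧ α ^ n = β ^ m) : (cnear α β).Finite := by
  obtain ⟨κ, c, hc, hm⟩ := hT
  obtain ⟨n₁, hn₁, h1⟩ := near_arg ha hb hα hβ
  obtain ⟨n₂, hn₂, h2⟩ := near_lin ha hb one_pos
  set a : ℝ := ‖α‖ with hadef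
  set b : ℝ := ‖β‖ with hbdef
  have hla : 0 < log a := log_pos ha
  have hlb : 0 < log b := log_pos hb
  have hs1 : 1 < √a := by
    rw [lt_sqrt (by norm_num)]
    linarith
  obtain ⟨n₃, hn₃⟩ := sqrt_large ha 2
  set K : ℝ := (log a + 1) / log b with hK
  have hK0 : 0 < K := by positivity
  obtain ⟨n₄, hn₄⟩ := exp_beats hs1 κ ((K + 2) ^ κ / c)
  set N : ℕ := max (max n₁ n₂) (max n₃ n₄) with hN
  have hlin : ∀ p ∈ cnear α β, N ≤ p.1 →
      |(p.1 : ℝ) * log a - p.2 * log b| ≤ 2 / √a ^ p.1 := by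
    intro p hp hn
    have h3 := h2 p (cnear_sub α β hp)
      (((le_max_right _ _).trans (le_max_left _ _)).trans hn)
    rw [lin, log_one, sqrt_one, zero_add, div_one] at h3
    exact h3
  -- the argument is an integer
  have hint : ∀ p ∈ cnear α β, N ≤ p.1 → ∃ k : ℤ, (p.1 : ℝ) * t - p.2 * s = k := by
    intro p hp hn
    have e1 : n₁ ≤ p.1 := ((le_max_left _ _).trans (le_max_left _ _)).trans hn
    have e3 : n₃ ≤ p.1 := ((le_max_left _ _).trans (le_max_right _ _)).trans hn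
    have e4 : n₄ ≤ p.1 := ((le_max_right _ _).trans (le_max_right _ _)).trans hn
    have hp1 : (1 : ℝ) ≤ p.1 := by
      have : 1 ≤ p.1 := hn₁.trans e1
      exact_mod_cast this
    refine ⟨round ((p.1 : ℝ) * t - p.2 * s), ?_⟩
    by_contra hcon
    set k : ℤ := round ((p.1 : ℝ) * t - p.2 * s) with hk
    have h3 := hm p.1 p.2 k (by
      push_cast
      exact sub_ne_zero.2 hcon)
    push_cast at h3
    have h4 := h1 p hp e1
    rw [← hk] at h4
    have h5 := hlin p hp hn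
    have h6 := hn₃ p.1 e3
    have hS : 0 < √a ^ p.1 := by positivity
    have h7 : (p.2 : ℝ) ≤ K * p.1 := by
      rw [hK, div_mul_eq_mul_div, le_div_iff₀ hlb]
      have h8 : 2 / √a ^ p.1 ≤ 1 := by
        rw [div_le_one hS]
        exact h6.le
      have h9 := (abs_le.1 h5).1
      nlinarith
    have hp20 : (0 : ℝ) ≤ p.2 := Nat.cast_nonneg _
    rw [abs_of_nonneg (by linarith : (0 : ℝ) ≤ (p.1 : ℝ)), abs_of_nonneg hp20] at h3
    have h8 : ((p.1 : ℝ) + p.2 + 1) ^ κ ≤ (K + 2) ^ κ * (p.1 : ℝ) ^ κ := by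
      rw [← mul_pow]
      exact pow_le_pow_left₀ (by positivity) (by nlinarith) κ
    have h9 : c ≤ (K + 2) ^ κ * (p.1 : ℝ) ^ κ * (1 / √a ^ p.1) := by
      refine h3.trans ?_
      exact mul_le_mul h8 h4 (abs_nonneg _) (by positivity)
    have h10 := hn₄ p.1 e4
    rw [mul_one_div, le_div_iff₀ hS] at h9
    have h11 : (K + 2) ^ κ / c * (p.1 : ℝ) ^ κ = (K + 2) ^ κ * (p.1 : ℝ) ^ κ / c := by ring
    rw [h11, div_lt_iff₀ hc] at h10
    linarith
  -- two near misses are proportional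
  have hpar : ∀ p ∈ cnear α β, ∀ q ∈ cnear α β, N ≤ p.1 → N ≤ q.1 →
      (q.1 : ℝ) * p.2 = p.1 * q.2 := by
    intro p hp q hq hpn hqn
    obtain ⟨k, hk⟩ := hint p hp hpn
    obtain ⟨l, hl⟩ := hint q hq hqn
    by_contra hcon
    have hd : (p.1 : ℝ) * q.2 - q.1 * p.2 ≠ 0 := sub_ne_zero.2 (Ne.symm hcon)
    have h3 : t = ((k : ℝ) * q.2 - l * p.2) / ((p.1 : ℝ) * q.2 - q.1 * p.2) := by
      rw [eq_div_iff hd, ← hk, ← hl]
      ring
    have h4 : s = ((k : ℝ) * q.1 - l * p.1) / ((p.1 : ℝ) * q.2 - q.1 * p.2) := by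
      rw [eq_div_iff hd, ← hk, ← hl]
      ring
    rcases hirr with h5 | h5
    · apply h5
      refine ⟨((k : ℚ) * q.2 - l * p.2) / ((p.1 : ℚ) * q.2 - q.1 * p.2), ?_⟩
      rw [h3]
      push_cast
      rfl
    · apply h5
      refine ⟨((k : ℚ) * q.1 - l * p.1) / ((p.1 : ℚ) * q.2 - q.1 * p.2), ?_⟩
      rw [h4]
      push_cast
      rfl
  by_contra hinf
  have hbig : ∀ M : ℕ, ∃ p ∈ cnear α β, M < p.1 := by
    intro M
    by_contra hcon
    push Not at hcon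
    apply hinf
    refine (near_fin ha hb one_pos (M : ℝ)).subset ?_
    intro p hp
    exact ⟨by exact_mod_cast hcon p hp, cnear_sub α β hp⟩
  obtain ⟨p, hp, hpN⟩ := hbig N
  have hp1 : 0 < p.1 := by omega
  have hp1R : (0 : ℝ) < p.1 := by exact_mod_cast hp1
  have hzero : (p.1 : ℝ) * log a - p.2 * log b = 0 := by
    by_contra hne
    have hδ : 0 < |(p.1 : ℝ) * log a - p.2 * log b| := abs_pos.2 hne
    obtain ⟨n₅, hn₅⟩ := sqrt_large ha (2 * p.1 / |(p.1 : ℝ) * log a - p.2 * log b|)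
    obtain ⟨q, hq, hqM⟩ := hbig (max N n₅)
    have hqN : N ≤ q.1 := ((le_max_left _ _).trans hqM.le)
    have hq5 : n₅ ≤ q.1 := ((le_max_right _ _).trans hqM.le)
    have h3 := hpar p hp q hq hpN.le hqN
    have h4 : (q.1 : ℝ) * ((p.1 : ℝ) * log a - p.2 * log b) =
        p.1 * ((q.1 : ℝ) * log a - q.2 * log b) := by
      linear_combination (-log b) * h3
    have h5 := hlin q hq hqN
    have h6 := hn₅ q.1 hq5
    rw [div_lt_iff₀ hδ] at h6
    have hS : 0 < √a ^ q.1 := by positivity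
    have h7 := congrArg abs h4
    rw [abs_mul, abs_mul, abs_of_pos hp1R] at h7
    have hq1 : (1 : ℝ) ≤ q.1 := by
      have : 1 ≤ q.1 := by omega
      exact_mod_cast this
    rw [abs_of_nonneg (by linarith : (0 : ℝ) ≤ (q.1 : ℝ))] at h7
    have h8 : |(p.1 : ℝ) * log a - p.2 * log b| ≤ p.1 * (2 / √a ^ q.1) := by
      have h9 : |(p.1 : ℝ) * log a - p.2 * log b| ≤
          q.1 * |(p.1 : ℝ) * log a - p.2 * log b| := le_mul_of_one_le_left hδ.le hq1
      rw [h7] at h9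
      exact h9.trans (mul_le_mul_of_nonneg_left h5 hp1R.le)
    have h9 : (p.1 : ℝ) * (2 / √a ^ q.1) = 2 * p.1 / √a ^ q.1 := by ring
    rw [h9, le_div_iff₀ hS] at h8
    linarith
  obtain ⟨k, hk⟩ := hint p hp hpN.le
  apply hind
  have hab : a ^ p.1 = b ^ p.2 := by
    have h3 : log (a ^ p.1) = log (b ^ p.2) := by
      rw [log_pow, log_pow]
      linarith
    exact log_injOn_pos (Set.mem_Ioi.2 (by positivity)) (Set.mem_Ioi.2 (by positivity)) h3
  have hp2 : 0 < p.2 := by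
    rcases Nat.eq_zero_or_pos p.2 with h3 | h3
    · rw [h3, pow_zero] at hab
      have : 1 < a ^ p.1 := one_lt_pow₀ ha hp1.ne'
      linarith
    · exact h3
  refine ⟨p.1, p.2, hp1, hp2, ?_⟩
  have h7 : α ^ p.1 = (a : ℂ) ^ p.1 * Complex.exp (p.1 * (2 * π * t * Complex.I)) := by
    rw [hα, mul_pow, ← Complex.exp_nat_mul]
  have h8 : β ^ p.2 = (b : ℂ) ^ p.2 * Complex.exp (p.2 * (2 * π * s * Complex.I)) := by
    rw [hβ, mul_pow, ← Complex.exp_nat_mul]
  have h9 : (p.1 * (2 * π * t * Complex.I) : ℂ) =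
      p.2 * (2 * π * s * Complex.I) + (k : ℤ) * (2 * π * Complex.I) := by
    have h10 : ((p.1 : ℂ) * t - p.2 * s) = (k : ℂ) := by exact_mod_cast hk
    linear_combination (2 * π * Complex.I) * h10
  have h11 : (a : ℂ) ^ p.1 = (b : ℂ) ^ p.2 := by exact_mod_cast hab
  rw [h7, h8, h9, Complex.exp_add, Complex.exp_int_mul_two_pi_mul_I, mul_one, h11]

end Run7.h302.NC
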