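import Pool.Agent.Run7.h302.NC.Thin
import Pool.Agent.Run7.h302.NC.Meas
import Pool.Agent.Run7.h302.NC.Cop

/-!
# The counts for all sets of pairs
-/

set_option autoImplicit false

namespace Run7.h302.NC

open Real Filter Topology

variable {a b c : ℝ}

theorem dioph_iff {ξ : ℝ} : Dioph ξ ↔ Irrational ξ ∧ ¬ Liouville ξ := by
  constructor
  · rintro ⟨κ, c₀, hκ, hc₀, hm⟩
    refine ⟨?_, ?_⟩
    · rintro ⟨q, hq⟩
      have h1 := hm q.den q.num (by exact_mod_cast q.den_ne_zero)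
      have h2 : ((q.den : ℤ) : ℝ) * ξ - (q.num : ℝ) = 0 := by
        rw [← hq]
        have h3 : (q : ℝ) = (q.num : ℝ) / q.den := Rat.cast_def q
        have h4 : (q.den : ℝ) ≠ 0 := by exact_mod_cast q.den_ne_zero
        rw [h3]
        push_cast
        field_simp
        ring
      rw [h2, abs_zero, mul_zero] at h1
      linarith
    · intro hL
      obtain ⟨k, hk⟩ := pow_unbounded_of_one_lt (1 / c₀) (one_lt_two : (1 : ℝ) < 2)
      obtain ⟨j, hj⟩ := exists_nat_ge κ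
      obtain ⟨v, u, hu, -, h1⟩ := hL (j + 1 + k)
      have hu0 : (0 : ℝ) < u := by
        have : (0 : ℤ) < u := by omega
        exact_mod_cast this
      have hu1 : (1 : ℝ) ≤ u := by
        have : (1 : ℤ) ≤ u := by omega
        exact_mod_cast this
      have hu2 : (2 : ℝ) ≤ u := by
        have : (2 : ℤ) ≤ u := by omega
        exact_mod_cast this
      have h2 := hm u v (by omega)
      rw [abs_of_pos hu0] at h2
      have h3 : |(u : ℝ) * ξ - v| = u * |ξ - v / u| := by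
        rw [← abs_of_pos hu0, ← abs_mul, abs_of_pos hu0]
        congr 1
        field_simp
      rw [h3] at h2
      have h4 : (u : ℝ) ^ κ ≤ (u : ℝ) ^ j := by
        rw [← rpow_natCast]
        exact rpow_le_rpow_of_exponent_le hu1 hj
      have h5 : c₀ ≤ (u : ℝ) ^ j * (u * (1 / (u : ℝ) ^ (j + 1 + k))) := by
        refine h2.trans ?_
        apply mul_le_mul h4 _ (by positivity) (by positivity)
        exact mul_le_mul_of_nonneg_left h1.le hu0.le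
      have h6 : (u : ℝ) ^ j * (u * (1 / (u : ℝ) ^ (j + 1 + k))) = 1 / (u : ℝ) ^ k := by
        rw [pow_add, pow_succ]
        field_simp
      rw [h6] at h5
      have h7 : (2 : ℝ) ^ k ≤ (u : ℝ) ^ k := pow_le_pow_left₀ (by norm_num) hu2 k
      have h8 : (1 : ℝ) / (u : ℝ) ^ k ≤ 1 / 2 ^ k :=
        one_div_le_one_div_of_le (by positivity) h7
      have h9 : (1 : ℝ) / 2 ^ k < c₀ := by
        rw [div_lt_iff₀ (by positivity)]
        rw [div_lt_iff₀ hc₀] at hk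
        linarith
      linarith
  · rintro ⟨h1, h2⟩
    exact dioph_of h1 h2

/-- **the count for separated near misses** -/
theorem count_sepd (ha : 1 < a) (hb : 1 < b) (hc : 0 < c) (hS : Sepd a b c) :
    ∃ C : ℝ, 0 ≤ C ∧
      (∀ h : ℕ, {p | p ∈ near a b c ∧ p.1 ≤ tow h}.Finite ∧
        (({p | p ∈ near a b c ∧ p.1 ≤ tow h}.ncard : ℕ) : ℝ) ≤ h + C) ∧
      ∀ (S : Set (ℕ × ℕ)) (x T : ℝ) (h : ℕ), 2 ≤ x → C * log x ≤ T → T ≤ tow h →
        |(({p | p ∈ S ∧ (p.1 : ℝ) ≤ T ∧ |c * a ^ p.1 - b ^ p.2| ≤ x}.ncard : ℕ) : ℝ) -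
          (({p | p ∈ S ∧ c * a ^ p.1 ≤ x ∧ b ^ p.2 ≤ x}.ncard : ℕ) : ℝ)| ≤ C * (log x + h) := by
  obtain ⟨C1, hC1, h1⟩ := box_diff ha hb hc
  obtain ⟨C2, h2⟩ := near_thin ha hb hc hS
  have hl2 : 0 < log 2 := log_pos (by norm_num)
  refine ⟨max (C2 : ℝ) (C1 + C2 / log 2 + 1), le_max_of_le_left (Nat.cast_nonneg _),
    fun h => ⟨(h2 h).1, ?_⟩, fun S x T h hx hT hTh => ?_⟩
  · have h3 : (({p | p ∈ near a b c ∧ p.1 ≤ tow h}.ncard : ℕ) : ℝ) ≤ h + C2 := by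
      exact_mod_cast (h2 h).2
    have h4 := le_max_left (C2 : ℝ) (C1 + C2 / log 2 + 1)
    linarith
  · have hC2 : (0 : ℝ) ≤ C2 := Nat.cast_nonneg _
    have hM := le_max_right (C2 : ℝ) (C1 + C2 / log 2 + 1)
    set M : ℝ := max (C2 : ℝ) (C1 + C2 / log 2 + 1) with hMdef
    have hlx : log 2 ≤ log x := log_le_log (by norm_num) hx
    have hlx0 : 0 < log x := by linarith
    have hq : 0 ≤ (C2 : ℝ) / log 2 := by positivity
    have hT1 : C1 * log x ≤ T := by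
      refine le_trans (mul_le_mul_of_nonneg_right ?_ hlx0.le) hT
      linarith
    obtain ⟨-, -, h3⟩ := h1 S x T hx hT1
    have h4 : (({p : ℕ × ℕ | p ∈ S ∧ (p.1 : ℝ) ≤ T ∧ p ∈ near a b c}.ncard : ℕ) : ℝ) ≤ h + C2 := by
      have h5 : {p : ℕ × ℕ | p ∈ S ∧ (p.1 : ℝ) ≤ T ∧ p ∈ near a b c} ⊆
          {p | p ∈ near a b c ∧ p.1 ≤ tow h} := by
        rintro p ⟨-, h6, h7⟩
        exact ⟨h7, by exact_mod_cast h6.trans hTh⟩
      have h6 := (Set.ncard_le_ncard h5 (h2 h).1).trans (h2 h).2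
      exact_mod_cast h6
    have h5 : (C2 : ℝ) ≤ C2 / log 2 * log x := by
      rw [div_mul_eq_mul_div, le_div_iff₀ hl2]
      exact mul_le_mul_of_nonneg_left hlx hC2
    have hh : (0 : ℝ) ≤ h := Nat.cast_nonneg _
    have hM1 : 1 ≤ M := by linarith
    have h6 : (h : ℝ) ≤ M * h := by nlinarith
    have h7 : (C1 + C2 / log 2) * log x ≤ M * log x :=
      mul_le_mul_of_nonneg_right (by linarith) hlx0.le
    calc _ ≤ C1 * log x + (({p : ℕ × ℕ | p ∈ S ∧ (p.1 : ℝ) ≤ T ∧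
            p ∈ near a b c}.ncard : ℕ) : ℝ) := h3
      _ ≤ M * (log x + h) := by
        rw [mul_add]
        linarith

/-- **the count for `c = 1` and sets with few pairs on each line** -/
theorem count_lines (ha : 1 < a) (hb : 1 < b) :
    ∃ C : ℝ, 0 ≤ C ∧
      ∀ (k : ℕ) (S : Set (ℕ × ℕ)), FewOnLines k S →
      ∀ (x T : ℝ) (h : ℕ), 2 ≤ x → C * log x ≤ T → T ≤ tow h →
        |(({p | p ∈ S ∧ (p.1 : ℝ) ≤ T ∧ |1 * a ^ p.1 - b ^ p.2| ≤ x}.ncard : ℕ) : ℝ) -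
          (({p | p ∈ S ∧ 1 * a ^ p.1 ≤ x ∧ b ^ p.2 ≤ x}.ncard : ℕ) : ℝ)| ≤
            C * (log x + k * (h + 1)) := by
  obtain ⟨C1, hC1, h1⟩ := box_diff ha hb one_pos
  obtain ⟨C2, h2⟩ := near_thin_one ha hb
  have hl2 : 0 < log 2 := log_pos (by norm_num)
  refine ⟨C1 + C2 / log 2 + C2 + 1, by positivity, fun k S hS x T h hx hT hTh => ?_⟩
  have hC2 : (0 : ℝ) ≤ C2 := Nat.cast_nonneg _
  have hlx : log 2 ≤ log x := log_le_log (by norm_num) hx
  have hlx0 : 0 < log x := by linarith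
  have hq : 0 ≤ (C2 : ℝ) / log 2 := by positivity
  have hT1 : C1 * log x ≤ T := by
    refine le_trans (mul_le_mul_of_nonneg_right ?_ hlx0.le) hT
    linarith
  obtain ⟨-, -, h3⟩ := h1 S x T hx hT1
  have h4 : (({p : ℕ × ℕ | p ∈ S ∧ (p.1 : ℝ) ≤ T ∧ p ∈ near a b 1}.ncard : ℕ) : ℝ) ≤
      k * (h + C2) + C2 := by
    have h5 : {p : ℕ × ℕ | p ∈ S ∧ (p.1 : ℝ) ≤ T ∧ p ∈ near a b 1} ⊆
        {p | p ∈ S ∧ p ∈ near a b 1 ∧ p.1 ≤ tow h} := by
      rintro p ⟨h5, h6, h7⟩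
      exact ⟨h5, h7, by exact_mod_cast h6.trans hTh⟩
    have hf : {p | p ∈ S ∧ p ∈ near a b 1 ∧ p.1 ≤ tow h}.Finite := by
      refine (near_fin ha hb one_pos ((tow h : ℕ) : ℝ)).subset ?_
      rintro p ⟨-, h6, h7⟩
      exact ⟨by exact_mod_cast h7, h6⟩
    have h6 := (Set.ncard_le_ncard h5 hf).trans (h2 k S hS h)
    exact_mod_cast h6
  have h5 : (C2 : ℝ) ≤ C2 / log 2 * log x := by
    rw [div_mul_eq_mul_div, le_div_iff₀ hl2]
    exact mul_le_mul_of_nonneg_left hlx hC2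
  have hh : (0 : ℝ) ≤ h := Nat.cast_nonneg _
  have hk : (0 : ℝ) ≤ k := Nat.cast_nonneg _
  have h6 : (k : ℝ) * (h + C2) ≤ (C2 + 1) * (k * (h + 1)) := by
    have : (h : ℝ) + C2 ≤ (C2 + 1) * (h + 1) := by nlinarith
    calc (k : ℝ) * (h + C2) ≤ k * ((C2 + 1) * (h + 1)) := mul_le_mul_of_nonneg_left this hk
      _ = _ := by ring
  have h7 : 0 ≤ (k : ℝ) * (h + 1) := by positivity
  calc _ ≤ C1 * log x + (({p : ℕ × ℕ | p ∈ S ∧ (p.1 : ℝ) ≤ T ∧
          p ∈ near a b 1}.ncard : ℕ) : ℝ) := h3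
    _ ≤ (C1 + C2 / log 2 + C2 + 1) * (log x + k * (h + 1)) := by
      have e1 : 0 ≤ (C2 + 1) * log x := by positivity
      have e2 : 0 ≤ (C1 + C2 / log 2) * ((k : ℝ) * (h + 1)) := by positivity
      nlinarith

lemma few_coprime : FewOnLines 1 {p : ℕ × ℕ | p.1.Coprime p.2} := by
  intro l hl F hF
  rw [Finset.card_le_one]
  intro p hp q hq
  have key : ∀ r ∈ F, r = l := by
    intro r hr
    obtain ⟨h1, g, h2⟩ := hF r hr
    simp only [Set.mem_ofPred_eq] at h1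
    rw [h2] at h1
    have h3 : g = 1 := by
      have h4 : Nat.gcd (g * l.1) (g * l.2) = 1 := h1
      rw [Nat.gcd_mul_left, Nat.Coprime.gcd_eq_one hl, mul_one] at h4
      exact h4
    rw [h2, h3, one_mul, one_mul]
  rw [key p hp, key q hq]

lemma tow_ge (h : ℕ) : h + 1 ≤ tow h := by
  induction h with
  | zero => simp [tow]
  | succ h ih =>
    have h1 : tow h < 2 ^ tow h := Nat.lt_two_pow_self
    rw [tow]
    omega

/-- the tower of height `log x` is larger than `C log x` -/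
lemma tow_large (C : ℝ) : ∀ᶠ x : ℝ in atTop, C * log x ≤ tow ⌊log x⌋₊ := by
  have h1 : ∀ᶠ h : ℕ in atTop, |C| * (h + 1) ≤ (2 : ℝ) ^ h := by
    have h2 : Tendsto (fun n : ℕ => ((n : ℝ) ^ 1) / 2 ^ n) atTop (𝓝 0) :=
      tendsto_pow_const_div_const_pow_of_one_lt 1 one_lt_two
    have h3 : ∀ᶠ n : ℕ in atTop, ((n : ℝ) ^ 1) / 2 ^ n < 1 / (2 * (|C| + 1)) :=
      h2.eventually_lt_const (by positivity)
    filter_upwards [h3, eventually_ge_atTop 1] with n hn hn1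
    rw [pow_one, div_lt_div_iff₀ (by positivity) (by positivity)] at hn
    have h4 : (1 : ℝ) ≤ n := by exact_mod_cast hn1
    nlinarith [abs_nonneg C]
  have h2 : Tendsto (fun x : ℝ => ⌊log x⌋₊ - 1) atTop atTop := by
    refine (tendsto_sub_atTop_nat 1).comp ?_
    exact tendsto_nat_floor_atTop.comp tendsto_log_atTop
  filter_upwards [h2.eventually h1, tendsto_log_atTop.eventually_ge_atTop (1 : ℝ)] with x hx hx1
  have h3 : 1 ≤ ⌊log x⌋₊ := by
    rw [Nat.one_le_floor_iff]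
    exact hx1
  obtain ⟨j, hj⟩ : ∃ j, ⌊log x⌋₊ = j + 1 := ⟨⌊log x⌋₊ - 1, by omega⟩
  rw [hj, Nat.add_sub_cancel] at hx
  have h4 : log x < (⌊log x⌋₊ : ℝ) + 1 := Nat.lt_floor_add_one _
  rw [hj] at h4 ⊢
  push_cast at h4
  have h5 : (2 : ℝ) ^ (j + 1) ≤ ((tow (j + 1) : ℕ) : ℝ) := by
    rw [tow]
    push_cast
    exact pow_le_pow_right₀ (by norm_num) (tow_ge j)
  have h6 : C * log x ≤ |C| * (j + 1 + 1) := by
    calc C * log x ≤ |C| * log x := mul_le_mul_of_nonneg_right (le_abs_self _) (by linarith)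
      _ ≤ |C| * (j + 1 + 1) := mul_le_mul_of_nonneg_left h4.le (abs_nonneg _)
  have h7 : |C| * ((j : ℝ) + 1 + 1) ≤ 2 * (|C| * (j + 1)) := by
    have : (0 : ℝ) ≤ |C| * j := by positivity
    nlinarith [abs_nonneg C]
  rw [pow_succ] at h5
  linarith

/-- **the coprime pairs** -/
theorem coprime_count (ha : 1 < a) (hb : 1 < b) :
    Tendsto (fun x : ℝ => (({p : ℕ × ℕ | p.1.Coprime p.2 ∧ p.1 ≤ tow ⌊log x⌋₊ ∧
      |a ^ p.1 - b ^ p.2| ≤ x}.ncard : ℕ) : ℝ) / log x ^ 2) atTop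
      (𝓝 (6 / π ^ 2 / (log a * log b))) := by
  obtain ⟨C, hC0, hC⟩ := count_lines ha hb
  have h1 := cop_box ha hb
  have h2 : Tendsto (fun x : ℝ => 3 * C / log x) atTop (𝓝 0) :=
    Tendsto.div_atTop tendsto_const_nhds tendsto_log_atTop
  rw [← sub_zero (6 / π ^ 2 / (log a * log b))]
  have h3 : Tendsto (fun x : ℝ => (({p : ℕ × ℕ | p.1.Coprime p.2 ∧ a ^ p.1 ≤ x ∧
      b ^ p.2 ≤ x}.ncard : ℕ) : ℝ) / log x ^ 2 -
      (({p : ℕ × ℕ | p.1.Coprime p.2 ∧ p.1 ≤ tow ⌊log x⌋₊ ∧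
      |a ^ p.1 - b ^ p.2| ≤ x}.ncard : ℕ) : ℝ) / log x ^ 2) atTop (𝓝 0) := by
    rw [tendsto_zero_iff_abs_tendsto_zero]
    refine squeeze_zero' (Eventually.of_forall fun x => abs_nonneg _) ?_ h2
    filter_upwards [tow_large C, eventually_ge_atTop (2 : ℝ),
      tendsto_log_atTop.eventually_ge_atTop (1 : ℝ)] with x hx hx2 hlx
    have h4 := hC 1 _ few_coprime x (tow ⌊log x⌋₊) ⌊log x⌋₊ hx2 hx le_rfl
    simp only [one_mul, Nat.cast_le, Set.mem_ofPred_eq, Nat.cast_one] at h4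
    have hf : (⌊log x⌋₊ : ℝ) ≤ log x := Nat.floor_le (by linarith)
    have hl0 : 0 < log x := by linarith
    simp only [Function.comp]
    rw [← sub_div, abs_div, abs_of_pos (by positivity : 0 < log x ^ 2), div_le_div_iff₀
      (by positivity) hl0, abs_sub_comm]
    have h5 : C * (log x + ((⌊log x⌋₊ : ℝ) + 1)) ≤ 3 * C * log x := by nlinarith
    calc _ ≤ 3 * C * log x * log x := mul_le_mul_of_nonneg_right (h4.trans h5) hl0.le
      _ = _ := by ring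
  have h4 := h1.sub h3
  refine h4.congr fun x => ?_
  ring

end Run7.h302.NC
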