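import Pool.Agent.Run7.h302.NC.Count
import Mathlib.NumberTheory.Transcendental.Liouville.Basic

/-!
# The near misses are exponentially separated
-/

set_option autoImplicit false

namespace Run7.h302.NC

open Real

variable {a b c : ℝ}

/-- `ξ` has a finite irrationality measure -/
def Dioph (ξ : ℝ) : Prop :=
  ∃ κ c₀ : ℝ, 0 ≤ κ ∧ 0 < c₀ ∧ ∀ u v : ℤ, u ≠ 0 → c₀ ≤ |(u : ℝ)| ^ κ * |u * ξ - v|

/-- the linear form -/
noncomputable def lin (a b c : ℝ) (p : ℕ × ℕ) : ℝ := log c + p.1 * log a - p.2 * log b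

/-- the near misses are far apart -/
def Sepd (a b c : ℝ) : Prop :=
  ∃ κ K : ℝ, ∃ n₁ : ℕ, 0 ≤ κ ∧ 0 < K ∧ ∀ p ∈ near a b c, ∀ q ∈ near a b c, n₁ ≤ p.1 →
    p.1 ≤ q.1 → p ≠ q → √a ^ p.1 ≤ K * (q.1 : ℝ) ^ (κ + 1)

theorem near_lin (ha : 1 < a) (hb : 1 < b) (hc : 0 < c) : ∃ n₁ : ℕ, 1 ≤ n₁ ∧
    ∀ p ∈ near a b c, n₁ ≤ p.1 → |lin a b c p| ≤ 2 / √c / √a ^ p.1 := by
  have ha0 : 0 < a := by linarith
  obtain ⟨n₁, hn₁⟩ := pow_unbounded_of_one_lt (4 / c) ha
  refine ⟨n₁ + 1, by omega, fun p hp hn => ?_⟩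
  set y : ℝ := c * a ^ p.1 with hy
  set z : ℝ := b ^ p.2 with hz
  have hy0 : 0 < y := by positivity
  have hz0 : 0 < z := by positivity
  have h1 : 4 < y := by
    have h2 : a ^ n₁ ≤ a ^ p.1 := pow_le_pow_right₀ ha.le (by omega)
    rw [div_lt_iff₀ hc] at hn₁
    nlinarith
  have hs0 : 0 < √y := sqrt_pos.2 hy0
  have hss : √y * √y = y := mul_self_sqrt hy0.le
  have h2 : |y - z| < √y := by
    have h3 : |y - z| ^ 2 < √y ^ 2 := by
      rw [sq_sqrt hy0.le]
      exact hp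
    exact lt_of_pow_lt_pow_left₀ 2 hs0.le h3
  have h3 : 2 < √y := by
    rw [lt_sqrt (by norm_num)]
    linarith
  have h4 : y / 2 ≤ z := by
    have := (abs_lt.1 h2).2
    nlinarith
  have h5 : lin a b c p = log y - log z := by
    rw [lin, hy, hz, log_mul hc.ne' (by positivity), log_pow, log_pow]
  have h6 : 2 / √c / √a ^ p.1 = 2 / √y := by
    rw [div_div, hy, sqrt_mul hc.le]
    congr 2
    rw [← sqrt_sq (by positivity : 0 ≤ √a ^ p.1), ← pow_mul, mul_comm p.1 2, pow_mul,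
      sq_sqrt ha0.le]
  rw [h5, h6]
  have h7 : log y - log z ≤ (y - z) / z := by
    rw [← log_div hy0.ne' hz0.ne']
    have := log_le_sub_one_of_pos (div_pos hy0 hz0)
    have h8 : y / z - 1 = (y - z) / z := by field_simp
    linarith
  have h8 : log z - log y ≤ (z - y) / y := by
    rw [← log_div hz0.ne' hy0.ne']
    have := log_le_sub_one_of_pos (div_pos hz0 hy0)
    have h9 : z / y - 1 = (z - y) / y := by field_simp
    linarith
  have h9 := (abs_lt.1 h2).1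
  have h10 := (abs_lt.1 h2).2
  rw [abs_le]
  constructor
  · have h11 : (z - y) / y ≤ 2 / √y := by
      rw [div_le_div_iff₀ hy0 hs0]
      nlinarith
    linarith
  · have h11 : (y - z) / z ≤ 2 / √y := by
      rw [div_le_div_iff₀ hz0 hs0]
      nlinarith
    linarith

/-- eventually `A < √a ^ n` -/
lemma sqrt_large (ha : 1 < a) (A : ℝ) : ∃ n₂ : ℕ, ∀ n : ℕ, n₂ ≤ n → A < √a ^ n := by
  have hs : 1 < √a := by
    rw [lt_sqrt (by norm_num)]
    linarith
  obtain ⟨n₂, hn₂⟩ := pow_unbounded_of_one_lt A hs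
  exact ⟨n₂, fun n hn => hn₂.trans_le (pow_le_pow_right₀ hs.le hn)⟩

lemma two_small {A B s : ℝ} (hs : 0 < s) (h : A * 4 / B < s) (hB : 0 < B) :
    2 * (A / s) < B := by
  rw [div_lt_iff₀ hB] at h
  have h2 : 2 * (A / s) = 2 * A / s := by ring
  rw [h2, div_lt_iff₀ hs]
  nlinarith

/-- elimination of `log a` -/
theorem sepd_of_b (ha : 1 < a) (hb : 1 < b) (hc : 0 < c) (hξ : Dioph (log c / log b)) :
    Sepd a b c := by
  have hla : 0 < log a := log_pos ha
  have hlb : 0 < log b := log_pos hb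
  have hs : 1 < √a := by
    rw [lt_sqrt (by norm_num)]
    linarith
  obtain ⟨κ, c₀, hκ, hc₀, hm⟩ := hξ
  obtain ⟨n₁, hn₁, hnear⟩ := near_lin ha hb hc
  set K0 : ℝ := 2 / √c with hK0
  have hK00 : 0 < K0 := by positivity
  obtain ⟨n₂, hn₂⟩ := sqrt_large ha (K0 * 4 / log b)
  refine ⟨κ, 2 * K0 / (c₀ * log b), max n₁ n₂, hκ, by positivity,
    fun p hp q hq hpn hpq hne => ?_⟩
  have hn1 : n₁ ≤ p.1 := (le_max_left _ _).trans hpn
  have hn2 : n₂ ≤ p.1 := (le_max_right _ _).trans hpn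
  have e1 := hnear p hp hn1
  have e2 := hnear q hq (hn1.trans hpq)
  have hS : 0 < √a ^ p.1 := by positivity
  have hS' : √a ^ p.1 ≤ √a ^ q.1 := pow_le_pow_right₀ hs.le hpq
  have e3 : |lin a b c q| ≤ K0 / √a ^ p.1 :=
    e2.trans (div_le_div_of_nonneg_left hK00.le hS hS')
  have hp1 : (0 : ℝ) < p.1 := by
    have : 0 < p.1 := by omega
    exact_mod_cast this
  have hq1 : (0 : ℝ) < q.1 := by
    have : 0 < q.1 := by omega
    exact_mod_cast this
  have hpqR : (p.1 : ℝ) ≤ q.1 := by exact_mod_cast hpq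
  -- the first coordinates differ
  have hne1 : p.1 ≠ q.1 := by
    intro h
    apply hne
    have e4 : lin a b c p - lin a b c q = ((q.2 : ℝ) - p.2) * log b := by
      rw [lin, lin, h]
      ring
    have e5 : |lin a b c p - lin a b c q| ≤ 2 * (K0 / √a ^ p.1) := by
      have := abs_sub (lin a b c p) (lin a b c q)
      linarith
    have e6 := two_small (A := K0) hS (hn₂ p.1 hn2) hlb
    rw [e4, abs_mul, abs_of_pos hlb] at e5
    have e7 : |(q.2 : ℝ) - p.2| < 1 := by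
      by_contra hcon
      push Not at hcon
      nlinarith
    have e8 : |(q.2 : ℤ) - p.2| < 1 := by exact_mod_cast e7
    rw [Int.abs_lt_one_iff] at e8
    exact Prod.ext h (by omega)
  have hu : ((q.1 : ℤ) - p.1) ≠ 0 := by omega
  have e4 := hm ((q.1 : ℤ) - p.1) ((q.1 : ℤ) * p.2 - p.1 * q.2) hu
  push_cast at e4
  have e5 : (((q.1 : ℝ) - p.1) * (log c / log b) - ((q.1 : ℝ) * p.2 - p.1 * q.2)) * log b =
      q.1 * lin a b c p - p.1 * lin a b c q := by
    rw [lin, lin]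
    field_simp
    ring
  have e6 : |((q.1 : ℝ) - p.1) * (log c / log b) - ((q.1 : ℝ) * p.2 - p.1 * q.2)| * log b ≤
      2 * K0 * q.1 / √a ^ p.1 := by
    rw [← abs_of_pos hlb, ← abs_mul, abs_of_pos hlb, e5]
    calc |(q.1 : ℝ) * lin a b c p - p.1 * lin a b c q|
        ≤ |(q.1 : ℝ) * lin a b c p| + |(p.1 : ℝ) * lin a b c q| := abs_sub _ _
      _ = q.1 * |lin a b c p| + p.1 * |lin a b c q| := by
          rw [abs_mul, abs_mul, abs_of_pos hq1, abs_of_pos hp1]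
      _ ≤ q.1 * (K0 / √a ^ p.1) + q.1 * (K0 / √a ^ p.1) := by gcongr
      _ = 2 * K0 * q.1 / √a ^ p.1 := by ring
  have e7 : |(q.1 : ℝ) - p.1| ^ κ ≤ (q.1 : ℝ) ^ κ := by
    apply rpow_le_rpow (abs_nonneg _) _ hκ
    rw [abs_of_nonneg (by linarith)]
    linarith
  set W : ℝ := |((q.1 : ℝ) - p.1) * (log c / log b) - ((q.1 : ℝ) * p.2 - p.1 * q.2)| with hW
  have hW0 : 0 ≤ W := abs_nonneg _
  have e8 : c₀ * log b ≤ (q.1 : ℝ) ^ κ * (2 * K0 * q.1 / √a ^ p.1) := by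
    calc c₀ * log b ≤ (|(q.1 : ℝ) - p.1| ^ κ * W) * log b :=
          mul_le_mul_of_nonneg_right e4 hlb.le
      _ = |(q.1 : ℝ) - p.1| ^ κ * (W * log b) := by ring
      _ ≤ (q.1 : ℝ) ^ κ * (2 * K0 * q.1 / √a ^ p.1) :=
          mul_le_mul e7 e6 (by positivity) (by positivity)
  have e9 : (q.1 : ℝ) ^ κ * (2 * K0 * q.1 / √a ^ p.1) =
      2 * K0 * (q.1 : ℝ) ^ (κ + 1) / √a ^ p.1 := by
    rw [rpow_add hq1, rpow_one]
    ring
  rw [e9, le_div_iff₀ hS] at e8
  rw [div_mul_eq_mul_div, le_div_iff₀ (by positivity)]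
  linarith

/-- elimination of `log b` -/
theorem sepd_of_a (ha : 1 < a) (hb : 1 < b) (hc : 0 < c) (hξ : Dioph (log c / log a)) :
    Sepd a b c := by
  have hla : 0 < log a := log_pos ha
  have hlb : 0 < log b := log_pos hb
  have hs : 1 < √a := by
    rw [lt_sqrt (by norm_num)]
    linarith
  obtain ⟨κ, c₀, hκ, hc₀, hm⟩ := hξ
  obtain ⟨n₁, hn₁, hnear⟩ := near_lin ha hb hc
  set K0 : ℝ := 2 / √c with hK0
  have hK00 : 0 < K0 := by positivity
  obtain ⟨n₂, hn₂⟩ := sqrt_large ha (K0 * 4 / log a)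
  obtain ⟨n₃, hn₃⟩ := sqrt_large ha K0
  set K : ℝ := (|log c| + log a + 1) / log b with hK
  have hK' : 0 < K := by positivity
  refine ⟨κ, K ^ κ * (2 * K * K0) / (c₀ * log a), max (max n₁ n₂) n₃, hκ, by positivity,
    fun p hp q hq hpn hpq hne => ?_⟩
  have hn1 : n₁ ≤ p.1 := ((le_max_left _ _).trans (le_max_left _ _)).trans hpn
  have hn2 : n₂ ≤ p.1 := ((le_max_right _ _).trans (le_max_left _ _)).trans hpn
  have hn3 : n₃ ≤ p.1 := (le_max_right _ _).trans hpn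
  have e1 := hnear p hp hn1
  have e2 := hnear q hq (hn1.trans hpq)
  have hS : 0 < √a ^ p.1 := by positivity
  have hS' : √a ^ p.1 ≤ √a ^ q.1 := pow_le_pow_right₀ hs.le hpq
  have e3 : |lin a b c q| ≤ K0 / √a ^ p.1 :=
    e2.trans (div_le_div_of_nonneg_left hK00.le hS hS')
  have hp1 : (1 : ℝ) ≤ p.1 := by
    have : 1 ≤ p.1 := by omega
    exact_mod_cast this
  have hpqR : (p.1 : ℝ) ≤ q.1 := by exact_mod_cast hpq
  have hq1 : (1 : ℝ) ≤ q.1 := hp1.trans hpqR
  -- the linear bound of the second coordinate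
  have hlin : ∀ r : ℕ × ℕ, (1 : ℝ) ≤ r.1 → |lin a b c r| ≤ 1 → (r.2 : ℝ) ≤ K * r.1 := by
    intro r hr hr1
    rw [hK, div_mul_eq_mul_div, le_div_iff₀ hlb]
    rw [lin] at hr1
    have e4 := (abs_le.1 hr1).1
    have e5 := le_abs_self (log c)
    nlinarith [abs_nonneg (log c)]
  have hsm : K0 / √a ^ p.1 ≤ 1 := by
    rw [div_le_one hS]
    exact (hn₃ p.1 hn3).le
  have hp2 := hlin p hp1 (e1.trans hsm)
  have hq2 := hlin q hq1 (e3.trans hsm)
  have hp2' : (p.2 : ℝ) ≤ K * q.1 := hp2.trans (mul_le_mul_of_nonneg_left hpqR hK'.le)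
  have hp20 : (0 : ℝ) ≤ p.2 := Nat.cast_nonneg _
  have hq20 : (0 : ℝ) ≤ q.2 := Nat.cast_nonneg _
  -- the second coordinates differ
  have hne1 : p.2 ≠ q.2 := by
    intro h
    apply hne
    have e4 : lin a b c q - lin a b c p = ((q.1 : ℝ) - p.1) * log a := by
      rw [lin, lin, h]
      ring
    have e5 : |lin a b c q - lin a b c p| ≤ 2 * (K0 / √a ^ p.1) := by
      have := abs_sub (lin a b c q) (lin a b c p)
      linarith
    have e6 := two_small (A := K0) hS (hn₂ p.1 hn2) hla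
    rw [e4, abs_mul, abs_of_pos hla] at e5
    have e7 : |(q.1 : ℝ) - p.1| < 1 := by
      by_contra hcon
      push Not at hcon
      nlinarith
    have e8 : |(q.1 : ℤ) - p.1| < 1 := by exact_mod_cast e7
    rw [Int.abs_lt_one_iff] at e8
    exact Prod.ext (by omega) h
  have hu : ((q.2 : ℤ) - p.2) ≠ 0 := by omega
  have e4 := hm ((q.2 : ℤ) - p.2) ((p.2 : ℤ) * q.1 - q.2 * p.1) hu
  push_cast at e4
  have e5 : (((q.2 : ℝ) - p.2) * (log c / log a) - ((p.2 : ℝ) * q.1 - q.2 * p.1)) * log a =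
      q.2 * lin a b c p - p.2 * lin a b c q := by
    rw [lin, lin]
    field_simp
    ring
  have e6 : |((q.2 : ℝ) - p.2) * (log c / log a) - ((p.2 : ℝ) * q.1 - q.2 * p.1)| * log a ≤
      2 * K * K0 * q.1 / √a ^ p.1 := by
    rw [← abs_of_pos hla, ← abs_mul, abs_of_pos hla, e5]
    calc |(q.2 : ℝ) * lin a b c p - p.2 * lin a b c q|
        ≤ |(q.2 : ℝ) * lin a b c p| + |(p.2 : ℝ) * lin a b c q| := abs_sub _ _
      _ = q.2 * |lin a b c p| + p.2 * |lin a b c q| := by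
          rw [abs_mul, abs_mul, abs_of_nonneg hq20, abs_of_nonneg hp20]
      _ ≤ (K * q.1) * (K0 / √a ^ p.1) + (K * q.1) * (K0 / √a ^ p.1) := by gcongr
      _ = 2 * K * K0 * q.1 / √a ^ p.1 := by ring
  have e7 : |(q.2 : ℝ) - p.2| ^ κ ≤ (K * q.1) ^ κ := by
    apply rpow_le_rpow (abs_nonneg _) _ hκ
    rw [abs_le]
    constructor <;> linarith
  set W : ℝ := |((q.2 : ℝ) - p.2) * (log c / log a) - ((p.2 : ℝ) * q.1 - q.2 * p.1)| with hW
  have hW0 : 0 ≤ W := abs_nonneg _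
  have e8 : c₀ * log a ≤ (K * q.1) ^ κ * (2 * K * K0 * q.1 / √a ^ p.1) := by
    calc c₀ * log a ≤ (|(q.2 : ℝ) - p.2| ^ κ * W) * log a :=
          mul_le_mul_of_nonneg_right e4 hla.le
      _ = |(q.2 : ℝ) - p.2| ^ κ * (W * log a) := by ring
      _ ≤ (K * q.1) ^ κ * (2 * K * K0 * q.1 / √a ^ p.1) :=
          mul_le_mul e7 e6 (by positivity) (by positivity)
  have e9 : (K * q.1) ^ κ * (2 * K * K0 * q.1 / √a ^ p.1) =
      K ^ κ * (2 * K * K0) * (q.1 : ℝ) ^ (κ + 1) / √a ^ p.1 := by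
    rw [rpow_add (by linarith), rpow_one, mul_rpow hK'.le (by linarith)]
    ring
  rw [e9, le_div_iff₀ hS] at e8
  rw [div_mul_eq_mul_div, le_div_iff₀ (by positivity)]
  linarith

/-- an irrational number which is not a Liouville number -/
theorem dioph_of {ξ : ℝ} (h1 : Irrational ξ) (h2 : ¬ Liouville ξ) : Dioph ξ := by
  simp only [Liouville, not_forall, not_exists, not_and, not_lt] at h2
  obtain ⟨n, hn⟩ := h2
  -- denominator one
  obtain ⟨d, hd, hd1⟩ : ∃ d : ℝ, 0 < d ∧ ∀ v : ℤ, d ≤ |ξ - v| := by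
    refine ⟨|ξ - round ξ|, ?_, fun v => round_le ξ v⟩
    rw [abs_pos, sub_ne_zero]
    exact h1.ne_int _
  have key : ∀ u v : ℤ, 0 < u → min d 1 ≤ (u : ℝ) ^ (n : ℝ) * |u * ξ - v| := by
    intro u v hu
    have huR : (1 : ℝ) ≤ u := by exact_mod_cast hu
    have hup : (1 : ℝ) ≤ (u : ℝ) ^ (n : ℝ) := one_le_rpow huR (Nat.cast_nonneg n)
    rcases eq_or_lt_of_le (Int.add_one_le_iff.2 hu) with h | h
    · have h3 : u = 1 := by omega
      subst h3
      refine (min_le_left _ _).trans ((hd1 v).trans ?_)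
      have h4 : |ξ - v| = |((1 : ℤ) : ℝ) * ξ - v| := by norm_num
      rw [h4]
      exact le_mul_of_one_le_left (abs_nonneg _) hup
    · have h3 : 1 < u := by omega
      have hne : ξ ≠ (v : ℝ) / u := by
        intro h4
        apply h1
        exact ⟨(v : ℚ) / u, by rw [h4]; push_cast; rfl⟩
      have h4 := hn v u h3 hne
      have hu0 : (0 : ℝ) < u := by linarith
      have h5 : |(u : ℝ) * ξ - v| = u * |ξ - v / u| := by
        rw [← abs_of_pos hu0, ← abs_mul, abs_of_pos hu0]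
        congr 1
        field_simp
      rw [h5, rpow_natCast]
      have h6 : (1 : ℝ) ≤ (u : ℝ) ^ n * |ξ - v / u| := by
        have h7 : 1 / (u : ℝ) ^ n ≤ |ξ - v / u| := h4
        rw [div_le_iff₀ (by positivity)] at h7
        linarith
      refine (min_le_right _ _).trans ?_
      have h8 : 0 ≤ (u : ℝ) ^ n * |ξ - v / u| := by positivity
      nlinarith
  refine ⟨n, min d 1, Nat.cast_nonneg n, lt_min hd one_pos, fun u v hu => ?_⟩
  rcases lt_or_gt_of_ne hu with h | h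
  · have h3 := key (-u) (-v) (by omega)
    push_cast at h3
    have hneg : (u : ℝ) < 0 := by exact_mod_cast h
    rw [abs_of_neg hneg]
    have h4 : |-(u : ℝ) * ξ - -(v : ℝ)| = |(u : ℝ) * ξ - v| := by
      rw [← abs_neg]
      congr 1
      ring
    rwa [h4] at h3
  · have hpos : (0 : ℝ) < u := by exact_mod_cast h
    rw [abs_of_pos hpos]
    exact key u v h

end Run7.h302.NC
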