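import Pool.Agent.Run7.h302.NC.Sep
import Pool.Agent.TH709.NC.Lines

/-!
# Separated near misses are very thin
-/

set_option autoImplicit false

namespace Run7.h302.NC

open Real

variable {a b c : ℝ}

/-- the tower `2 ^ 2 ^ ... ^ 2` of height `h` -/
def tow : ℕ → ℕ
  | 0 => 1
  | h + 1 => 2 ^ tow h

/-- from a power bound to an exponential bound -/
theorem exp_of_sepd (ha : 1 < a) (h : Sepd a b c) : ∃ n₀ : ℕ, ∃ lam : ℝ, 0 < lam ∧ lam ≤ 1 ∧
    1 ≤ lam * n₀ ∧
    ∀ p ∈ near a b c, ∀ q ∈ near a b c, n₀ ≤ p.1 → p.1 ≤ q.1 → p ≠ q →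
      (2 : ℝ) ^ (lam * (p.1 : ℝ)) ≤ lam * q.1 := by
  have ha0 : 0 < a := by linarith
  have hs : 1 < √a := by
    rw [lt_sqrt (by norm_num)]
    linarith
  have hl2 : 0 < log 2 := log_pos (by norm_num)
  obtain ⟨κ, K, n₁, hκ, hK, hsep⟩ := h
  set μ := log (√a) with hμ
  have hμ0 : 0 < μ := log_pos hs
  have hκ1 : 0 < κ + 1 := by linarith
  set lam : ℝ := min 1 (μ / (2 * (κ + 1) * log 2)) with hlam
  have hlam0 : 0 < lam := lt_min one_pos (by positivity)
  have hlam1 : lam ≤ 1 := min_le_left _ _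
  have hlam2 : lam * log 2 ≤ μ / (2 * (κ + 1)) := by
    have h1 : lam ≤ μ / (2 * (κ + 1) * log 2) := min_le_right _ _
    calc lam * log 2 ≤ μ / (2 * (κ + 1) * log 2) * log 2 := mul_le_mul_of_nonneg_right h1 hl2.le
      _ = μ / (2 * (κ + 1)) := by field_simp
  obtain ⟨n₂, hn₂⟩ := exists_nat_ge ((log K / (κ + 1) - log lam) / (μ / (2 * (κ + 1))))
  obtain ⟨n₃, hn₃⟩ := exists_nat_ge (1 / lam)
  refine ⟨max (max n₁ n₂) (max n₃ 1), lam, hlam0, hlam1, ?_, ?_⟩
  · have h1 : (n₃ : ℝ) ≤ ((max (max n₁ n₂) (max n₃ 1) : ℕ) : ℝ) := by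
      exact_mod_cast (le_max_left _ _).trans (le_max_right _ _)
    have h2 : 1 / lam ≤ ((max (max n₁ n₂) (max n₃ 1) : ℕ) : ℝ) := hn₃.trans h1
    rw [div_le_iff₀ hlam0] at h2
    linarith
  · intro p hp q hq hn hpq hne
    have hn1 : n₁ ≤ p.1 := ((le_max_left _ _).trans (le_max_left _ _)).trans hn
    have hn2 : n₂ ≤ p.1 := ((le_max_right _ _).trans (le_max_left _ _)).trans hn
    have hn3 : 1 ≤ p.1 := ((le_max_right _ _).trans (le_max_right _ _)).trans hn
    have h1 := hsep p hp q hq hn1 hpq hne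
    have hq1 : (0 : ℝ) < q.1 := by
      have : 0 < q.1 := by omega
      exact_mod_cast this
    have h2 : (p.1 : ℝ) * μ ≤ log K + (κ + 1) * log q.1 := by
      have h3 := log_le_log (by positivity) h1
      rw [log_pow, log_mul hK.ne' (by positivity), log_rpow hq1] at h3
      exact h3
    have h3 : (log K / (κ + 1) - log lam) ≤ μ / (2 * (κ + 1)) * p.1 := by
      have h4 : (log K / (κ + 1) - log lam) / (μ / (2 * (κ + 1))) ≤ p.1 :=
        hn₂.trans (by exact_mod_cast hn2)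
      rw [div_le_iff₀ (by positivity)] at h4
      linarith
    have h4 : (p.1 : ℝ) * (μ / (κ + 1)) - log K / (κ + 1) ≤ log q.1 := by
      have h5 : (p.1 : ℝ) * (μ / (κ + 1)) - log K / (κ + 1) = (p.1 * μ - log K) / (κ + 1) := by
        ring
      rw [h5, div_le_iff₀ hκ1]
      linarith
    rw [← log_le_log_iff (by positivity) (by positivity), log_rpow (by norm_num),
      log_mul hlam0.ne' hq1.ne']
    have h5 : lam * (p.1 : ℝ) * log 2 ≤ μ / (2 * (κ + 1)) * p.1 := by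
      calc lam * (p.1 : ℝ) * log 2 = (lam * log 2) * p.1 := by ring
        _ ≤ _ := mul_le_mul_of_nonneg_right hlam2 (Nat.cast_nonneg _)
    have h6 : (p.1 : ℝ) * (μ / (κ + 1)) = 2 * (μ / (2 * (κ + 1)) * p.1) := by
      field_simp
    linarith

theorem thin_aux {S : Set (ℕ × ℕ)} {n₀ : ℕ} {lam : ℝ} (hln : 1 ≤ lam * n₀) (hlam : 0 < lam)
    (h3 : ∀ p ∈ S, ∀ q ∈ S, n₀ ≤ p.1 → p.1 ≤ q.1 → p ≠ q →
      (2 : ℝ) ^ (lam * (p.1 : ℝ)) ≤ lam * q.1) :
    ∀ (h : ℕ) (F : Finset (ℕ × ℕ)),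
      (∀ l ∈ F, l ∈ S ∧ n₀ ≤ l.1 ∧ lam * l.1 < tow h) → F.card ≤ h := by
  classical
  intro h
  induction h with
  | zero =>
    intro F hF
    rw [Nat.le_zero, Finset.card_eq_zero, Finset.eq_empty_iff_forall_notMem]
    intro l hl
    obtain ⟨-, h4, h5⟩ := hF l hl
    have h6 : (n₀ : ℝ) ≤ l.1 := by exact_mod_cast h4
    have h7 : lam * n₀ ≤ lam * l.1 := mul_le_mul_of_nonneg_left h6 hlam.le
    have h8 : ((tow 0 : ℕ) : ℝ) = 1 := by simp [tow]
    rw [h8] at h5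
    linarith
  | succ h ih =>
    intro F hF
    have h4 := Finset.card_filter_add_card_filter_not (s := F)
      (fun l => lam * (l.1 : ℝ) < tow h)
    have h5 := ih (F.filter fun l => lam * (l.1 : ℝ) < tow h) (by
      intro l hl
      rw [Finset.mem_filter] at hl
      exact ⟨(hF l hl.1).1, (hF l hl.1).2.1, hl.2⟩)
    have h6 : (F.filter fun l => ¬ lam * (l.1 : ℝ) < tow h).card ≤ 1 := by
      rw [Finset.card_le_one]
      have key : ∀ p ∈ F.filter (fun l => ¬ lam * (l.1 : ℝ) < tow h),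
          ∀ q ∈ F.filter (fun l => ¬ lam * (l.1 : ℝ) < tow h), p.1 ≤ q.1 → p = q := by
        intro p hp q hq hpq
        by_contra hne
        rw [Finset.mem_filter] at hp hq
        obtain ⟨a1, a2, a3⟩ := hF p hp.1
        obtain ⟨b1, b2, b3⟩ := hF q hq.1
        have h7 := h3 p a1 q b1 a2 hpq hne
        have h8 : ((tow (h + 1) : ℕ) : ℝ) = (2 : ℝ) ^ ((tow h : ℕ) : ℝ) := by
          rw [Real.rpow_natCast]
          simp [tow]
        rw [h8] at b3
        have h9 : (tow h : ℝ) ≤ lam * p.1 := not_lt.1 hp.2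
        have h10 : (2 : ℝ) ^ ((tow h : ℕ) : ℝ) ≤ (2 : ℝ) ^ (lam * (p.1 : ℝ)) :=
          Real.rpow_le_rpow_of_exponent_le (by norm_num) h9
        linarith
      intro p hp q hq
      rcases le_total p.1 q.1 with h7 | h7
      · exact key p hp q hq h7
      · exact (key q hq p hp h7).symm
    omega

/-- the near misses are very thin -/
theorem near_thin (ha : 1 < a) (hb : 1 < b) (hc : 0 < c) (hS : Sepd a b c) : ∃ C : ℕ, ∀ h : ℕ,
    {p | p ∈ near a b c ∧ p.1 ≤ tow h}.Finite ∧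
      {p | p ∈ near a b c ∧ p.1 ≤ tow h}.ncard ≤ h + C := by
  classical
  obtain ⟨n₀, lam, hlam, hlam1, hln, g3⟩ := exp_of_sepd ha hS
  have hfin : ∀ N : ℕ, {p | p ∈ near a b c ∧ p.1 ≤ N}.Finite := by
    intro N
    refine (near_fin ha hb hc (N : ℝ)).subset ?_
    rintro p ⟨h1, h2⟩
    exact ⟨by exact_mod_cast h2, h1⟩
  have hF0 := hfin n₀
  refine ⟨hF0.toFinset.card + 1, fun h => ⟨hfin _, ?_⟩⟩
  have hF := hfin (tow h)
  rw [Set.ncard_eq_toFinset_card _ hF]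
  have h4 := Finset.card_filter_add_card_filter_not (s := hF.toFinset) (fun l => n₀ ≤ l.1)
  have h5 := thin_aux (S := near a b c) hln hlam g3 (h + 1)
    (hF.toFinset.filter fun l => n₀ ≤ l.1) (by
    intro l hl
    rw [Finset.mem_filter, Set.Finite.mem_toFinset] at hl
    refine ⟨hl.1.1, hl.2, ?_⟩
    have h6 : (l.1 : ℝ) ≤ tow h := by exact_mod_cast hl.1.2
    have h7 : (tow h : ℝ) < tow (h + 1) := by
      have : tow h < tow (h + 1) := Nat.lt_two_pow_self
      exact_mod_cast this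
    have h8 : lam * (l.1 : ℝ) ≤ 1 * l.1 := mul_le_mul_of_nonneg_right hlam1 (Nat.cast_nonneg _)
    linarith)
  have h6 : (hF.toFinset.filter fun l => ¬ n₀ ≤ l.1).card ≤ hF0.toFinset.card := by
    apply Finset.card_le_card
    intro l hl
    rw [Finset.mem_filter, Set.Finite.mem_toFinset] at hl
    rw [Set.Finite.mem_toFinset]
    exact ⟨hl.1.1, by omega⟩
  omega

lemma tow_eq (h : ℕ) : tow h = Pool.Agent.TH709.NC.tow h := by
  induction h with
  | zero => rfl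
  | succ h ih => rw [tow, Pool.Agent.TH709.NC.tow, ih]

/-- the pairs of `S` on each line through the origin are at most `k` -/
def FewOnLines (k : ℕ) (S : Set (ℕ × ℕ)) : Prop :=
  ∀ l : ℕ × ℕ, l.1.Coprime l.2 → ∀ F : Finset (ℕ × ℕ),
    (∀ p ∈ F, p ∈ S ∧ ∃ g : ℕ, p = (g * l.1, g * l.2)) → F.card ≤ k

/-- a near miss for `c = 1` is a multiple of a primitive near miss -/
theorem near_on (ha : 1 < a) (hb : 1 < b) : ∃ n₀ : ℕ, 1 ≤ n₀ ∧ ∀ p ∈ near a b 1, n₀ ≤ p.1 →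
    Pool.Agent.TH709.NC.On (Pool.Agent.TH709.NC.LL a b) p := by
  obtain ⟨n₀, hn₀⟩ := pow_unbounded_of_one_lt (4 : ℝ) ha
  refine ⟨n₀ + 1, by omega, fun p hp hn => ?_⟩
  simp only [near, Set.mem_ofPred_eq, one_mul] at hp
  have h1 : a ^ n₀ ≤ a ^ p.1 := pow_le_pow_right₀ ha.le (by omega)
  refine Pool.Agent.TH709.NC.on_of_large ha hb (x := max 2 |a ^ p.1 - b ^ p.2|) (le_max_left _ _)
    (le_max_right _ _) ?_
  rcases max_choice 2 |a ^ p.1 - b ^ p.2| with h | h <;> rw [h]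
  · linarith
  · exact hp

/-- the near misses of `c = 1` in a set with few pairs on each line are very thin -/
theorem near_thin_one (ha : 1 < a) (hb : 1 < b) : ∃ C : ℕ, ∀ (k : ℕ) (S : Set (ℕ × ℕ)),
    FewOnLines k S → ∀ h : ℕ,
      {p | p ∈ S ∧ p ∈ near a b 1 ∧ p.1 ≤ tow h}.ncard ≤ k * (h + C) + C := by
  classical
  obtain ⟨n₀, hn₀, hon⟩ := near_on ha hb
  obtain ⟨C, hC⟩ := Pool.Agent.TH709.NC.thin ha hb
  have hfin : ∀ N : ℕ, {p | p ∈ near a b 1 ∧ p.1 ≤ N}.Finite := by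
    intro N
    refine (near_fin ha hb one_pos (N : ℝ)).subset ?_
    rintro p ⟨h1, h2⟩
    exact ⟨by exact_mod_cast h2, h1⟩
  have hF0 := hfin n₀
  refine ⟨C + hF0.toFinset.card, fun k S hS h => ?_⟩
  have hL := Pool.Agent.TH709.NC.LL_fin ha hb (tow h)
  have hF : {p | p ∈ S ∧ p ∈ near a b 1 ∧ p.1 ≤ tow h}.Finite :=
    (hfin (tow h)).subset fun p hp => hp.2
  rw [Set.ncard_eq_toFinset_card _ hF]
  have h4 := Finset.card_filter_add_card_filter_not (s := hF.toFinset) (fun l => n₀ ≤ l.1)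
  have h6 : (hF.toFinset.filter fun l => ¬ n₀ ≤ l.1).card ≤ hF0.toFinset.card := by
    apply Finset.card_le_card
    intro l hl
    rw [Finset.mem_filter, Set.Finite.mem_toFinset] at hl
    rw [Set.Finite.mem_toFinset]
    exact ⟨hl.1.2.1, by omega⟩
  have h7 : (hF.toFinset.filter fun l => n₀ ≤ l.1) ⊆ hL.toFinset.biUnion
      (fun l => (hF.toFinset.filter fun p => n₀ ≤ p.1 ∧ ∃ g : ℕ, p = (g * l.1, g * l.2))) := by
    intro p hp
    rw [Finset.mem_filter, Set.Finite.mem_toFinset] at hp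
    obtain ⟨⟨hpS, hpn, hpt⟩, hpn₀⟩ := hp
    obtain ⟨l, hl, g, hg⟩ := hon p hpn hpn₀
    rw [Finset.mem_biUnion]
    refine ⟨l, ?_, ?_⟩
    · rw [Set.Finite.mem_toFinset]
      refine ⟨hl, ?_⟩
      have hg0 : g ≠ 0 := by
        rintro rfl
        rw [hg] at hpn₀
        simp at hpn₀
        omega
      have h8 : p.1 = g * l.1 := by rw [hg]
      calc l.1 ≤ g * l.1 := Nat.le_mul_of_pos_left _ (Nat.pos_of_ne_zero hg0)
        _ = p.1 := h8.symm
        _ ≤ tow h := hpt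
    · rw [Finset.mem_filter, Set.Finite.mem_toFinset]
      exact ⟨⟨hpS, hpn, hpt⟩, hpn₀, g, hg⟩
  have h8 : (hF.toFinset.filter fun l => n₀ ≤ l.1).card ≤ hL.toFinset.card * k := by
    refine (Finset.card_le_card h7).trans ?_
    refine Finset.card_biUnion_le_card_mul _ _ _ ?_
    intro l hl
    rw [Set.Finite.mem_toFinset] at hl
    refine hS l hl.1.2.1 _ ?_
    intro p hp
    rw [Finset.mem_filter, Set.Finite.mem_toFinset] at hp
    exact ⟨hp.1.1, hp.2.2⟩
  have h9 : hL.toFinset.card ≤ h + C := by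
    rw [← Set.ncard_eq_toFinset_card _ hL, tow_eq]
    exact hC h
  have h10 : hL.toFinset.card * k ≤ k * (h + (C + hF0.toFinset.card)) := by
    calc hL.toFinset.card * k ≤ (h + C) * k := Nat.mul_le_mul_right k h9
      _ = k * (h + C) := mul_comm _ _
      _ ≤ k * (h + (C + hF0.toFinset.card)) := Nat.mul_le_mul_left k (by omega)
  omega

end Run7.h302.NC
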